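import Pool.Agent.Lib.MP_d44404_lc.Defs

/-!
# Algebras of the signature of formulas, homomorphisms, relative quasivariety
-/

namespace Pool.Agent.Lib.MP_d44404_lc

/-- algebras with a constant and three binary operations -/
structure Alg (δ : Type) where
  bot : δ
  op : Fin 3 → δ → δ → δ

/-- connectives -/
def Fm.op : Fin 3 → Fm → Fm → Fm
  | 0 => Fm.and
  | 1 => Fm.or
  | 2 => Fm.imp

theorem Fm.rec' {P : Fm → Prop} (hv : ∀ i, P (.var i)) (hb : P .bot)
    (ho : ∀ k φ ψ, P φ → P ψ → P (Fm.op k φ ψ)) (φ : Fm) : P φ := by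
  induction φ with
  | var i => exact hv i
  | bot => exact hb
  | and φ ψ ih1 ih2 => exact ho 0 φ ψ ih1 ih2
  | or φ ψ ih1 ih2 => exact ho 1 φ ψ ih1 ih2
  | imp φ ψ ih1 ih2 => exact ho 2 φ ψ ih1 ih2

/-- `φ ↔ ψ` -/
def Fm.iff (φ ψ : Fm) : Fm := Fm.and (Fm.imp φ ψ) (Fm.imp ψ φ)

@[simp] theorem Fm.subst_op (σ : ℕ → Fm) (k : Fin 3) (φ ψ : Fm) :
    (Fm.op k φ ψ).subst σ = Fm.op k (φ.subst σ) (ψ.subst σ) := by
  match k with
  | 0 => rfl
  | 1 => rfl
  | 2 => rfl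

@[simp] theorem Fm.subst_iff (σ : ℕ → Fm) (φ ψ : Fm) :
    (Fm.iff φ ψ).subst σ = Fm.iff (φ.subst σ) (ψ.subst σ) := rfl

@[simp] theorem Fm.subst_var (σ : ℕ → Fm) (i : ℕ) : (Fm.var i).subst σ = σ i := rfl
@[simp] theorem Fm.subst_bot (σ : ℕ → Fm) : Fm.bot.subst σ = Fm.bot := rfl

theorem Fm.subst_var_self (φ : Fm) : φ.subst Fm.var = φ := by
  induction φ using Fm.rec' with
  | hv i => rfl
  | hb => rfl
  | ho k φ ψ h1 h2 => rw [Fm.subst_op, h1, h2]

/-- the variables of the formula are smaller than `m` -/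
def Fm.Below (m : ℕ) : Fm → Prop
  | var i => i < m
  | bot => True
  | and φ ψ => φ.Below m ∧ ψ.Below m
  | or φ ψ => φ.Below m ∧ ψ.Below m
  | imp φ ψ => φ.Below m ∧ ψ.Below m

theorem Fm.below_op {m : ℕ} {k : Fin 3} {φ ψ : Fm} :
    (Fm.op k φ ψ).Below m ↔ φ.Below m ∧ ψ.Below m := by
  match k with
  | 0 => rfl
  | 1 => rfl
  | 2 => rfl

theorem Fm.Below.mono {m m' : ℕ} (h : m ≤ m') {φ : Fm} (hφ : φ.Below m) : φ.Below m' := by
  induction φ using Fm.rec' with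
  | hv i => exact lt_of_lt_of_le hφ h
  | hb => trivial
  | ho k φ ψ h1 h2 =>
    rw [Fm.below_op] at hφ ⊢
    exact ⟨h1 hφ.1, h2 hφ.2⟩

theorem Fm.exists_below (φ : Fm) : ∃ m, φ.Below m := by
  induction φ using Fm.rec' with
  | hv i => exact ⟨i + 1, Nat.lt_succ_self i⟩
  | hb => exact ⟨0, trivial⟩
  | ho k φ ψ h1 h2 =>
    obtain ⟨m1, h1⟩ := h1
    obtain ⟨m2, h2⟩ := h2
    exact ⟨max m1 m2, Fm.below_op.2 ⟨h1.mono (le_max_left _ _), h2.mono (le_max_right _ _)⟩⟩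

theorem exists_below_set {Γ : Set Fm} (hΓ : Γ.Finite) : ∃ m, ∀ φ ∈ Γ, φ.Below m := by
  induction Γ, hΓ using Set.Finite.induction_on with
  | empty => exact ⟨0, by simp⟩
  | @insert φ Γ _ _ ih =>
    obtain ⟨m, hm⟩ := ih
    obtain ⟨m', hm'⟩ := φ.exists_below
    refine ⟨max m m', ?_⟩
    intro ψ hψ
    rcases hψ with rfl | hψ
    · exact hm'.mono (le_max_right _ _)
    · exact (hm ψ hψ).mono (le_max_left _ _)

/-- substitution that replaces the variables from `m` on by `⊥` -/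
def cutoff (m : ℕ) (i : ℕ) : Fm := if i < m then Fm.var i else Fm.bot

theorem Fm.Below.cutoff {m : ℕ} {φ : Fm} (hφ : φ.Below m) :
    φ.subst (MP_d44404_lc.cutoff m) = φ := by
  induction φ using Fm.rec' with
  | hv i =>
    have : i < m := hφ
    simp [MP_d44404_lc.cutoff, this]
  | hb => rfl
  | ho k φ ψ h1 h2 =>
    rw [Fm.below_op] at hφ
    rw [Fm.subst_op, h1 hφ.1, h2 hφ.2]

section alg

variable {δ ε ζ : Type}

/-- value of a formula in an algebra -/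
def Alg.ev (D : Alg δ) (v : ℕ → δ) : Fm → δ
  | .var i => v i
  | .bot => D.bot
  | .and φ ψ => D.op 0 (D.ev v φ) (D.ev v ψ)
  | .or φ ψ => D.op 1 (D.ev v φ) (D.ev v ψ)
  | .imp φ ψ => D.op 2 (D.ev v φ) (D.ev v ψ)

/-- the element `⊥ ⇨ ⊥` -/
def Alg.one (D : Alg δ) : δ := D.op 2 D.bot D.bot

/-- `(a ⇨ b) ⊓ (b ⇨ a)` -/
def Alg.iff (D : Alg δ) (a b : δ) : δ := D.op 0 (D.op 2 a b) (D.op 2 b a)

@[simp] theorem Alg.ev_op (D : Alg δ) (v : ℕ → δ) (k : Fin 3) (φ ψ : Fm) :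
    D.ev v (Fm.op k φ ψ) = D.op k (D.ev v φ) (D.ev v ψ) := by
  match k with
  | 0 => rfl
  | 1 => rfl
  | 2 => rfl

@[simp] theorem Alg.ev_iff (D : Alg δ) (v : ℕ → δ) (φ ψ : Fm) :
    D.ev v (Fm.iff φ ψ) = D.iff (D.ev v φ) (D.ev v ψ) := rfl

@[simp] theorem Alg.ev_var (D : Alg δ) (v : ℕ → δ) (i : ℕ) : D.ev v (.var i) = v i := rfl
@[simp] theorem Alg.ev_bot (D : Alg δ) (v : ℕ → δ) : D.ev v .bot = D.bot := rfl

theorem Alg.ev_subst (D : Alg δ) (v : ℕ → δ) (σ : ℕ → Fm) (φ : Fm) :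
    D.ev v (φ.subst σ) = D.ev (fun i => D.ev v (σ i)) φ := by
  induction φ using Fm.rec' with
  | hv i => rfl
  | hb => rfl
  | ho k φ ψ h1 h2 => rw [Fm.subst_op, Alg.ev_op, Alg.ev_op, h1, h2]

theorem Alg.ev_congr (D : Alg δ) {v w : ℕ → δ} {m : ℕ} (h : ∀ i < m, v i = w i) {φ : Fm}
    (hφ : φ.Below m) : D.ev v φ = D.ev w φ := by
  induction φ using Fm.rec' with
  | hv i => exact h i hφ
  | hb => rfl
  | ho k φ ψ h1 h2 =>
    rw [Fm.below_op] at hφ
    rw [Alg.ev_op, Alg.ev_op, h1 hφ.1, h2 hφ.2]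

/-- homomorphisms -/
structure IsHom (D : Alg δ) (E : Alg ε) (h : δ → ε) : Prop where
  bot : h D.bot = E.bot
  op : ∀ k a b, h (D.op k a b) = E.op k (h a) (h b)

theorem IsHom.ev {D : Alg δ} {E : Alg ε} {h : δ → ε} (hh : IsHom D E h) (v : ℕ → δ) (φ : Fm) :
    h (D.ev v φ) = E.ev (fun i => h (v i)) φ := by
  induction φ using Fm.rec' with
  | hv i => rfl
  | hb => exact hh.bot
  | ho k φ ψ h1 h2 => rw [Alg.ev_op, Alg.ev_op, hh.op, h1, h2]

theorem IsHom.one {D : Alg δ} {E : Alg ε} {h : δ → ε} (hh : IsHom D E h) : h D.one = E.one := by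
  rw [Alg.one, hh.op, hh.bot]; rfl

theorem IsHom.iff {D : Alg δ} {E : Alg ε} {h : δ → ε} (hh : IsHom D E h) (a b : δ) :
    h (D.iff a b) = E.iff (h a) (h b) := by
  rw [Alg.iff, hh.op, hh.op, hh.op]; rfl

theorem IsHom.comp {D : Alg δ} {E : Alg ε} {F : Alg ζ} {h : δ → ε} {g : ε → ζ}
    (hg : IsHom E F g) (hh : IsHom D E h) : IsHom D F fun x => g (h x) where
  bot := by rw [hh.bot, hg.bot]
  op k a b := by rw [hh.op, hg.op]

/-- validity of a rule in the matrix of an algebra -/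
def Alg.Valid (D : Alg δ) (Γ : Set Fm) (φ : Fm) : Prop :=
  ∀ v : ℕ → δ, (∀ ψ ∈ Γ, D.ev v ψ = D.one) → D.ev v φ = D.one

/-- the diagram of an algebra, the element `x` being denoted by the variable `idx x` -/
def Alg.diag (D : Alg δ) (idx : δ → ℕ) : Set Fm :=
  {Fm.iff (.var (idx D.bot)) .bot} ∪
    Set.range fun p : Fin 3 × δ × δ => Fm.iff (.var (idx (D.op p.1 p.2.1 p.2.2)))
      (Fm.op p.1 (.var (idx p.2.1)) (.var (idx p.2.2)))

theorem Alg.diag_finite [Finite δ] (D : Alg δ) (idx : δ → ℕ) : (D.diag idx).Finite :=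
  (Set.finite_singleton _).union (Set.finite_range _)

/-- the algebra of a Heyting algebra -/
def ha (α : Type) [HeytingAlgebra α] : Alg α where
  bot := ⊥
  op k := match k with
    | 0 => (· ⊓ ·)
    | 1 => (· ⊔ ·)
    | 2 => (· ⇨ ·)

end alg

section heyting

variable {α : Type} [HeytingAlgebra α]

theorem ha_ev (v : ℕ → α) (φ : Fm) : (ha α).ev v φ = φ.eval v := by
  induction φ with
  | var i => rfl
  | bot => rfl
  | and φ ψ ih1 ih2 => simp only [Alg.ev, Fm.eval, ih1, ih2]; rfl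
  | or φ ψ ih1 ih2 => simp only [Alg.ev, Fm.eval, ih1, ih2]; rfl
  | imp φ ψ ih1 ih2 => simp only [Alg.ev, Fm.eval, ih1, ih2]; rfl

theorem ha_one : (ha α).one = ⊤ := by
  show (⊥ : α) ⇨ ⊥ = ⊤
  exact himp_self

theorem ha_iff {a b : α} : (ha α).iff a b = ⊤ ↔ a = b := by
  show (a ⇨ b) ⊓ (b ⇨ a) = ⊤ ↔ a = b
  rw [inf_eq_top_iff, himp_eq_top_iff, himp_eq_top_iff]
  exact ⟨fun h => le_antisymm h.1 h.2, fun h => ⟨h.le, h.ge⟩⟩

theorem mem_logic {φ : Fm} : φ ∈ logic α ↔ ∀ v : ℕ → α, (ha α).ev v φ = ⊤ := by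
  simp only [logic, Set.mem_ofPred_eq, ha_ev]

/-- theorems of the system `⟨L(α), MP⟩` -/
theorem heytingSystem_thm {φ : Fm} : (heytingSystem α).Der ∅ φ ↔ φ ∈ logic α := by
  constructor
  · intro h0
    have h : MPDer (logic α ∪ ∅) φ := h0
    rw [Set.union_empty] at h
    clear h0
    induction h with
    | hyp h => exact h
    | mp _ _ ih1 ih2 =>
      intro v
      have h1 := ih1 v
      have h2 := ih2 v
      simp only [Fm.eval] at h1
      rw [h2, himp_eq_top_iff, top_le_iff] at h1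
      exact h1
  · intro h
    exact MPDer.hyp (Or.inl h)

/-- maps to formulas that are homomorphisms to the free algebra -/
def FHom {δ : Type} (α : Type) [HeytingAlgebra α] (D : Alg δ) (s : δ → Fm) : Prop :=
  ∀ v : ℕ → α, IsHom D (ha α) fun x => (ha α).ev v (s x)

/-- the formulas define different functions -/
def Sep (α : Type) [HeytingAlgebra α] (φ ψ : Fm) : Prop :=
  ∃ v : ℕ → α, (ha α).ev v φ ≠ (ha α).ev v ψ

/-- membership in the quasivariety of the free algebra -/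
def InQ {δ : Type} (α : Type) [HeytingAlgebra α] (D : Alg δ) : Prop :=
  ∀ a b : δ, a ≠ b → ∃ s, FHom α D s ∧ Sep α (s a) (s b)

/-- subdirect irreducibility relative to the quasivariety of the free algebra -/
def QSI {δ : Type} (α : Type) [HeytingAlgebra α] (D : Alg δ) : Prop :=
  ∃ a b : δ, a ≠ b ∧ ∀ s, FHom α D s → Sep α (s a) (s b) → ∀ x y, x ≠ y → Sep α (s x) (s y)

/-- the criterion -/
def Crit (α : Type) [HeytingAlgebra α] : Prop :=
  ∀ (γ δ : Type) [Finite γ] [Finite δ] (C : Alg γ) (D : Alg δ), InQ α C → InQ α D → QSI α C →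
    (∃ π, IsHom D C π ∧ Function.Surjective π) → ∃ e, IsHom C D e ∧ Function.Injective e

theorem FHom.comp {γ δ : Type} {C : Alg γ} {D : Alg δ} {s : δ → Fm} (hs : FHom α D s)
    {g : γ → δ} (hg : IsHom C D g) : FHom α C fun x => s (g x) :=
  fun v => (hs v).comp hg

/-- equality can be tested in the matrix -/
theorem InQ.eq_of_iff {δ : Type} {D : Alg δ} (hD : InQ α D) {a b : δ} (h : D.iff a b = D.one) :
    a = b := by
  by_contra hne
  obtain ⟨s, hs, v, hv⟩ := hD a b hne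
  apply hv
  have h1 := congrArg (fun x => (ha α).ev v (s x)) h
  simp only [(hs v).iff, (hs v).one, ha_one] at h1
  exact ha_iff.1 h1

/-- valid formulas are valid in the algebras of the quasivariety -/
theorem InQ.valid {δ : Type} {D : Alg δ} (hD : InQ α D) {φ : Fm} (h : φ ∈ logic α)
    (v : ℕ → δ) : D.ev v φ = D.one := by
  by_contra hne
  obtain ⟨s, hs, w, hw⟩ := hD _ _ hne
  apply hw
  rw [(hs w).ev, (hs w).one, ha_one]
  exact mem_logic.1 h _

theorem InQ.iff_self {δ : Type} {D : Alg δ} (hD : InQ α D) (a : δ) : D.iff a a = D.one := by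
  have h : Fm.iff (.var 0) (.var 0) ∈ logic α := by
    rw [mem_logic]
    intro v
    rw [Alg.ev_iff]
    exact ha_iff.2 rfl
  exact hD.valid h fun _ => a

/-- admissible rules are valid in the algebras of the quasivariety -/
theorem InQ.valid_rule {δ : Type} {D : Alg δ} (hD : InQ α D) {Γ : Set Fm} {φ : Fm}
    (h : (heytingSystem α).Admissible Γ φ) : D.Valid Γ φ := by
  intro v hv
  by_contra hne
  obtain ⟨s, hs, w, hw⟩ := hD _ _ hne
  apply hw
  have h1 : ∀ χ : Fm, (χ.subst fun i => s (v i)) ∈ logic α ↔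
      ∀ w : ℕ → α, (ha α).ev w (s (D.ev v χ)) = ⊤ := by
    intro χ
    rw [mem_logic]
    refine forall_congr' fun w => ?_
    rw [Alg.ev_subst, (hs w).ev]
  have h2 := h (fun i => s (v i)) (fun C hC => by
    rw [heytingSystem_thm, h1]
    intro w
    rw [hv C hC, (hs w).one, ha_one])
  rw [heytingSystem_thm, h1] at h2
  rw [h2 w, (hs w).one, ha_one]

end heyting

end Pool.Agent.Lib.MP_d44404_lc
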