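import Pool.Agent.Lib.MP_d44404_lc.Num

/-!
# The criterion needs only algebras of bounded size
-/

namespace Pool.Agent.Lib.MP_d44404_lc

/-- transport of an algebra along an equivalence -/
def Alg.transport {γ γ' : Type} (C : Alg γ) (f : γ ≃ γ') : Alg γ' where
  bot := f C.bot
  op k a b := f (C.op k (f.symm a) (f.symm b))

theorem transport_isHom {γ γ' : Type} (C : Alg γ) (f : γ ≃ γ') : IsHom C (C.transport f) f where
  bot := rfl
  op k a b := by simp [Alg.transport]

theorem transport_symm_isHom {γ γ' : Type} (C : Alg γ) (f : γ ≃ γ') :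
    IsHom (C.transport f) C f.symm where
  bot := by simp [Alg.transport]
  op k a b := by simp [Alg.transport]

/-- subalgebra of the values of formulas -/
def genAlg {δ : Type} (D : Alg δ) (g : ℕ → δ) : Alg (Set.range fun φ => D.ev g φ) where
  bot := ⟨D.bot, .bot, rfl⟩
  op k x y := ⟨D.op k x.1 y.1, by
    obtain ⟨_, φ, rfl⟩ := x
    obtain ⟨_, ψ, rfl⟩ := y
    exact ⟨Fm.op k φ ψ, D.ev_op g k φ ψ⟩⟩

theorem genAlg_isHom {δ : Type} (D : Alg δ) (g : ℕ → δ) :
    IsHom (genAlg D g) D Subtype.val where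
  bot := rfl
  op _ _ _ := rfl

section

variable {α : Type} [HeytingAlgebra α]

theorem InQ.of_injective {γ δ : Type} {C : Alg γ} {D : Alg δ} {g : γ → δ} (hg : IsHom C D g)
    (hinj : Function.Injective g) (hD : InQ α D) : InQ α C := by
  intro a b hab
  obtain ⟨s, hs, hsep⟩ := hD (g a) (g b) (fun h => hab (hinj h))
  exact ⟨_, hs.comp hg, hsep⟩

theorem QSI.transport {γ γ' : Type} {C : Alg γ} (f : γ ≃ γ') (hC : QSI α C) :
    QSI α (C.transport f) := by
  obtain ⟨a, b, hab, h⟩ := hC
  refine ⟨f a, f b, fun h => hab (f.injective h), fun s hs hsep x y hxy => ?_⟩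
  have h1 := h _ (hs.comp (transport_isHom C f)) hsep (f.symm x) (f.symm y)
    (fun h => hxy (f.symm.injective h))
  simpa using h1

theorem fm_congr {δ : Type} {D : Alg δ} (hD : InQ α D) {φ ψ : Fm}
    (h : ∀ v : ℕ → α, (ha α).ev v φ = (ha α).ev v ψ) (v : ℕ → δ) : D.ev v φ = D.ev v ψ := by
  apply hD.eq_of_iff
  rw [← Alg.ev_iff]
  apply hD.valid
  rw [mem_logic]
  intro w
  rw [Alg.ev_iff]
  exact ha_iff.2 (h w)

/-- bound for the number of elements of an algebra with `c` generators -/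
theorem card_gen_le [Finite α] {δ : Type} {D : Alg δ} (hD : InQ α D) {c : ℕ} {g : ℕ → δ}
    (hg : ∀ i, ¬ i < c → g i = D.bot) :
    Nat.card (Set.range fun φ => D.ev g φ) ≤ Nat.card α ^ (Nat.card α ^ c) := by
  let F : Fm → ((Fin c → α) → α) := fun φ u => (ha α).ev (ext c u) φ
  have hF : ∀ φ ψ, F φ = F ψ → D.ev g φ = D.ev g ψ := by
    intro φ ψ h
    have h1 : (fun i => D.ev g (cutoff c i)) = g := by
      funext i
      by_cases hi : i < c
      · simp [cutoff, hi]
      · rw [hg i hi]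
        simp [cutoff, hi]
    rw [← h1, ← Alg.ev_subst, ← Alg.ev_subst]
    apply fm_congr hD
    intro v
    rw [ev_cutoff, ev_cutoff (φ := ψ)]
    have h2 := congrFun h fun i : Fin c => v i
    have h3 : ∀ (u : Fin c → α), (fun i => (ha α).ev (ext c u) (cutoff c i)) = ext c u := by
      intro u
      funext i
      by_cases hi : i < c
      · simp [cutoff, hi]
      · simp only [cutoff, hi, if_false, ext, dif_neg, not_false_iff]
        rfl
    rw [Alg.ev_subst, Alg.ev_subst, h3]
    exact h2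
  let G : {f : (Fin c → α) → α // ∃ φ, F φ = f} → Set.range fun φ => D.ev g φ := fun f =>
    ⟨D.ev g f.2.choose, _, rfl⟩
  have hG : Function.Surjective G := by
    rintro ⟨_, φ, rfl⟩
    refine ⟨⟨F φ, φ, rfl⟩, Subtype.ext (hF _ _ ?_)⟩
    have h : ∃ ψ, F ψ = F φ := ⟨φ, rfl⟩
    exact h.choose_spec
  calc Nat.card (Set.range fun φ => D.ev g φ)
      ≤ Nat.card {f : (Fin c → α) → α // ∃ φ, F φ = f} := Nat.card_le_card_of_surjective G hG
    _ ≤ Nat.card ((Fin c → α) → α) := Nat.card_le_card_of_injective _ Subtype.val_injective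
    _ = Nat.card α ^ (Nat.card α ^ c) := by
      rw [Nat.card_fun, Nat.card_fun, Nat.card_fin]

variable {n tA : ℕ} (e : α ≃ Fin n) (hn : 0 < n) (hA : IsHom (ha α) (NA n tA hn) e)

include hA

theorem card_le_of_qsi {c t : ℕ} (hc : 0 < c) (h : QSI α (NA c t hc)) (hq : InQ α (NA c t hc)) :
    c ≤ NF n := by
  have hNF : 0 < NF n := pow_pos hn _
  obtain ⟨a, b, hab, h1⟩ := h
  obtain ⟨s, hs, hsep⟩ := hq a b hab
  obtain ⟨s', hs', hsep', -⟩ := compress e hn hs hsep
  obtain ⟨q, hq, hq', hrep⟩ := exists_code e hn hA hc hs'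
  have hinj : Function.Injective fun x : Fin c => (⟨dig (NF n) q x, dig_lt hNF _ _⟩ : Fin (NF n)) := by
    intro x y hxy
    by_contra hne
    obtain ⟨v, hv⟩ := h1 s' hs' (by
      obtain ⟨p, _, hp⟩ := hsep'
      exact ⟨_, hp⟩) x y hne
    have h2 : dig (NF n) q x = dig (NF n) q y := congrArg Fin.val hxy
    obtain ⟨s'', hs'', hrep'', hsep''⟩ := exists_FHom e hn hA hc hq'
    have h3 : Sep α (s'' x) (s'' y) := by
      obtain ⟨p, _, hp⟩ := hsep'
      have h4 : Sep α (s'' a) (s'' b) := by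
        refine ⟨W e hn p, fun h5 => hp ?_⟩
        apply e.injective
        apply Fin.ext
        rw [← hrep a p ‹_›, ← hrep b p ‹_›, hrep'' a p ‹_›, hrep'' b p ‹_›, h5]
      exact h1 s'' hs'' h4 x y hne
    exact rep_ne e hn (hrep'' x) (hrep'' y) (hsep'' _ _ h3) h2
  have := Fintype.card_le_of_injective _ hinj
  simpa using this

theorem crit_iff : Crit α ↔ NCrit n tA := by
  constructor
  · intro h c _ d _ t _ t' _ hc hd hC hD hq ⟨π, _, hπ, hsurj⟩
    rw [nInQ_iff e hn hA hc] at hC
    rw [nInQ_iff e hn hA hd] at hD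
    rw [nQSI_iff e hn hA hc] at hq
    rw [nHom_iff hd hc] at hπ
    obtain ⟨g, hg, hinj⟩ := h (Fin c) (Fin d) _ _ hC hD hq ⟨_, hπ, fun x => by
      obtain ⟨y, hy, hxy⟩ := hsurj x x.2
      exact ⟨⟨y, hy⟩, Fin.ext hxy⟩⟩
    obtain ⟨q, hq, hq'⟩ := exists_dig_fin g
    have h1 : (fun x : Fin c => (⟨dig d q x, dig_lt hd _ _⟩ : Fin d)) = g := by
      funext x
      exact Fin.ext (hq' x)
    refine ⟨q, hq, ?_, ?_⟩
    · rw [nHom_iff hc hd, h1]
      exact hg
    · intro x hx y hy hxy h2
      have h3 := hinj (a₁ := ⟨x, hx⟩) (a₂ := ⟨y, hy⟩) (Fin.ext (by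
        rw [← hq', ← hq']
        exact h2))
      exact hxy (congrArg Fin.val h3)
  · intro h γ δ _ _ C D hC hD hq ⟨π, hπ, hsurj⟩
    have hfinα : Finite α := Finite.of_equiv _ e.symm
    have hnα : Nat.card α = n := by rw [Nat.card_congr e, Nat.card_fin]
    -- the algebra `C` on an initial segment
    obtain ⟨c, ⟨f⟩⟩ := Finite.exists_equiv_fin γ
    have hc : 0 < c := lt_of_le_of_lt (Nat.zero_le _) (f C.bot).2
    obtain ⟨t, ht, htC⟩ := exists_NA hc (C.transport f)
    -- the subalgebra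
    choose pre hpre using hsurj
    let g : ℕ → δ := fun i => if hi : i < c then pre (f.symm ⟨i, hi⟩) else D.bot
    have hg : ∀ i, ¬ i < c → g i = D.bot := fun i hi => by simp [g, hi]
    have hcard := card_gen_le hD hg
    rw [hnα] at hcard
    have hD' : InQ α (genAlg D g) := hD.of_injective (genAlg_isHom D g) Subtype.val_injective
    obtain ⟨d, ⟨f'⟩⟩ := Finite.exists_equiv_fin (Set.range fun φ => D.ev g φ)
    have hd : 0 < d := lt_of_le_of_lt (Nat.zero_le _) (f' (genAlg D g).bot).2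
    have hcd : Nat.card (Set.range fun φ => D.ev g φ) = d := by
      rw [Nat.card_congr f', Nat.card_fin]
    rw [hcd] at hcard
    obtain ⟨t', ht', htD⟩ := exists_NA hd ((genAlg D g).transport f')
    have hC1 : InQ α (NA c t hc) := by
      rw [htC]
      exact hC.of_injective (transport_symm_isHom C f) f.symm.injective
    have hq1 : QSI α (NA c t hc) := by
      rw [htC]
      exact hq.transport f
    have hD1 : InQ α (NA d t' hd) := by
      rw [htD]
      exact hD'.of_injective (transport_symm_isHom _ f') f'.symm.injective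
    have hc1 := card_le_of_qsi e hn hA hc hq1 hC1
    have hπ1 : IsHom (NA d t' hd) (NA c t hc) fun x => f (π (f'.symm x).1) := by
      rw [htC, htD]
      exact (transport_isHom C f).comp (hπ.comp ((genAlg_isHom D g).comp
        (transport_symm_isHom _ f')))
    obtain ⟨p, hp, hp'⟩ := exists_dig_fin fun x : Fin d => f (π (f'.symm x).1)
    have hpe : (fun x : Fin d => (⟨dig c p x, dig_lt hc _ _⟩ : Fin c)) =
        fun x => f (π (f'.symm x).1) := by
      funext x
      exact Fin.ext (hp' x)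
    obtain ⟨q, _, hq2, hq3⟩ := h c (Nat.lt_succ_of_le hc1) d (Nat.lt_succ_of_le hcard) t ht t' ht'
      hc hd ((nInQ_iff e hn hA hc).2 hC1) ((nInQ_iff e hn hA hd).2 hD1)
      ((nQSI_iff e hn hA hc).2 hq1) ⟨p, hp, (nHom_iff hd hc).2 (by rw [hpe]; exact hπ1), by
        intro x hx
        have h1 : D.ev g (.var x) = pre (f.symm ⟨x, hx⟩) := by simp [g, hx]
        let y : Set.range fun φ => D.ev g φ := ⟨D.ev g (.var x), .var x, rfl⟩
        refine ⟨f' y, (f' y).2, ?_⟩
        rw [hp', Equiv.symm_apply_apply]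
        show ((f (π (D.ev g (.var x))) : Fin c) : ℕ) = x
        rw [h1, hpre, Equiv.apply_symm_apply]⟩
    rw [nHom_iff hc hd, htC, htD] at hq2
    refine ⟨_, (genAlg_isHom D g).comp ((transport_symm_isHom _ f').comp
      (hq2.comp (transport_isHom C f))), ?_⟩
    intro x y hxy
    have h1 := f'.symm.injective (Subtype.val_injective hxy)
    by_contra hne
    refine hq3 (f x) (f x).2 (f y) (f y).2 (fun h => hne (f.injective (Fin.ext h))) ?_
    exact congrArg Fin.val h1

end

end Pool.Agent.Lib.MP_d44404_lc
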