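import Pool.Agent.Lib.MP_d44404_lc.Basic

/-!
# Hereditary structural completeness implies the criterion
-/

namespace Pool.Agent.Lib.MP_d44404_lc

theorem Alg.Valid.refl {δ : Type} (D : Alg δ) {Γ : Set Fm} {φ : Fm} (h : φ ∈ Γ) : D.Valid Γ φ :=
  fun _ hv => hv φ h

theorem Alg.Valid.mono {δ : Type} {D : Alg δ} {Γ Δ : Set Fm} {φ : Fm} (h : Γ ⊆ Δ)
    (hφ : D.Valid Γ φ) : D.Valid Δ φ :=
  fun v hv => hφ v fun ψ hψ => hv ψ (h hψ)

theorem Alg.Valid.cut {δ : Type} {D : Alg δ} {Γ Δ : Set Fm} {φ : Fm}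
    (h : ∀ ψ ∈ Δ, D.Valid Γ ψ) (hφ : D.Valid Δ φ) : D.Valid Γ φ :=
  fun v hv => hφ v fun ψ hψ => h ψ hψ v hv

theorem Alg.Valid.subst {δ : Type} {D : Alg δ} {Γ : Set Fm} {φ : Fm} (σ : ℕ → Fm)
    (hφ : D.Valid Γ φ) : D.Valid (Fm.subst σ '' Γ) (φ.subst σ) := by
  intro v hv
  rw [Alg.ev_subst]
  refine hφ _ fun ψ hψ => ?_
  rw [← Alg.ev_subst]
  exact hv _ (Set.mem_image_of_mem _ hψ)

/-- the deductive system of a pair of matrices -/
def pairSystem {γ δ : Type} (C : Alg γ) (D : Alg δ) : DedSys :=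
  DedSys.ofRules (fun Γ φ => C.Valid Γ φ ∧ D.Valid Γ φ)
    (fun _ _ h => ⟨.refl C h, .refl D h⟩)
    (fun _ _ _ h hφ => ⟨hφ.1.mono h, hφ.2.mono h⟩)
    (fun _ _ _ h hφ => ⟨.cut (fun ψ hψ => (h ψ hψ).1) hφ.1, .cut (fun ψ hψ => (h ψ hψ).2) hφ.2⟩)
    (fun σ _ _ h => ⟨h.1.subst σ, h.2.subst σ⟩)

theorem pairSystem_thm {γ δ : Type} {C : Alg γ} {D : Alg δ} {φ : Fm} :
    (pairSystem C D).Der ∅ φ ↔ (∀ v, C.ev v φ = C.one) ∧ (∀ v, D.ev v φ = D.one) := by
  constructor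
  · rintro ⟨Γ', h1, -, h2, h3⟩
    have h4 : Γ' = ∅ := Set.subset_empty_iff.1 h1
    subst h4
    exact ⟨fun v => h2 v (by simp), fun v => h3 v (by simp)⟩
  · rintro ⟨h1, h2⟩
    exact ⟨∅, subset_rfl, Set.finite_empty, fun v _ => h1 v, fun v _ => h2 v⟩

theorem exists_idx (γ : Type) [Finite γ] : ∃ idx : γ → ℕ, Function.Injective idx := by
  obtain ⟨n, ⟨e⟩⟩ := Finite.exists_equiv_fin γ
  exact ⟨fun x => e x, fun x y h => e.injective (Fin.ext h)⟩

/-- valuation that sends the variable of an element to the element -/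
noncomputable def val {γ δ : Type} (idx : γ → ℕ) (f : γ → δ) (d : δ) (i : ℕ) : δ := by
  classical exact if h : ∃ x, idx x = i then f h.choose else d

theorem val_idx {γ δ : Type} {idx : γ → ℕ} (hidx : Function.Injective idx) (f : γ → δ) (d : δ)
    (x : γ) : val idx f d (idx x) = f x := by
  unfold val
  have h : ∃ y, idx y = idx x := ⟨x, rfl⟩
  rw [dif_pos h]
  rw [hidx h.choose_spec]

theorem ev_diag {γ δ : Type} {C : Alg γ} {D : Alg δ} {idx : γ → ℕ} {v : ℕ → δ}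
    (h : ∀ a b : δ, D.iff a b = D.one ↔ a = b) :
    (∀ ψ ∈ C.diag idx, D.ev v ψ = D.one) ↔ IsHom C D fun x => v (idx x) := by
  simp only [Alg.diag, Set.union_def, Set.mem_singleton_iff, Set.mem_range, Set.mem_ofPred_eq]
  constructor
  · intro H
    refine ⟨?_, fun k a b => ?_⟩
    · have := H _ (Or.inl rfl)
      rw [Alg.ev_iff, h] at this
      exact this
    · have := H _ (Or.inr ⟨(k, a, b), rfl⟩)
      rw [Alg.ev_iff, h, Alg.ev_op] at this
      exact this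
  · intro H ψ hψ
    rcases hψ with rfl | ⟨⟨k, a, b⟩, rfl⟩
    · rw [Alg.ev_iff, h]
      exact H.bot
    · rw [Alg.ev_iff, h, Alg.ev_op]
      exact H.op k a b

variable {α : Type} [HeytingAlgebra α]

theorem InQ.iff_eq_one {δ : Type} {D : Alg δ} (hD : InQ α D) (a b : δ) :
    D.iff a b = D.one ↔ a = b :=
  ⟨hD.eq_of_iff, fun h => by rw [h]; exact hD.iff_self b⟩

theorem crit_of_hsc (h : (heytingSystem α).completion.HereditarilyStructurallyComplete) :
    Crit α := by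
  intro γ δ _ _ C D hC hD hqsi ⟨π, hπ, hsurj⟩
  by_contra hno
  obtain ⟨a, b, hab, hinj⟩ := hqsi
  obtain ⟨idx, hidx⟩ := exists_idx γ
  have hext : (pairSystem C D).Extends (heytingSystem α).completion := by
    rintro Γ φ ⟨Γ', h1, h2, h3⟩
    exact ⟨Γ', h1, h2, hC.valid_rule h3, hD.valid_rule h3⟩
  have hsc := h _ hext
  have hthm : ∀ φ, (∀ v, D.ev v φ = D.one) → (pairSystem C D).Der ∅ φ := by
    intro φ hφ
    rw [pairSystem_thm]
    refine ⟨fun v => ?_, hφ⟩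
    choose w hw using fun i => hsurj (v i)
    have h1 := hπ.ev w φ
    rw [hφ w, hπ.one] at h1
    rw [show v = fun i => π (w i) from funext fun i => (hw i).symm]
    exact h1.symm
  have hadm : (pairSystem C D).Admissible (C.diag idx) (Fm.iff (.var (idx a)) (.var (idx b))) := by
    intro σ hσ
    apply hthm
    intro v
    rw [Fm.subst_iff, Alg.ev_iff, hD.iff_eq_one]
    have h2 : IsHom C D fun x => D.ev v (σ (idx x)) := by
      rw [← ev_diag (v := fun i => D.ev v (σ i)) hD.iff_eq_one]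
      intro ψ hψ
      rw [← Alg.ev_subst]
      exact (pairSystem_thm.1 (hσ ψ hψ)).2 v
    simp only [Fm.subst_var]
    by_contra hne
    apply hno
    refine ⟨_, h2, ?_⟩
    obtain ⟨s, hs, hsep⟩ := hD _ _ hne
    have h3 := hinj _ (hs.comp h2) hsep
    intro x y hxy
    by_contra hxy'
    obtain ⟨w, hw⟩ := h3 x y hxy'
    exact hw (by simp only [] at hxy; rw [hxy])
  obtain ⟨Γ', h1, h2, h3, -⟩ := hsc _ _ (C.diag_finite idx) hadm
  have h4 := h3.mono h1 (val idx id C.bot) (by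
    rw [ev_diag hC.iff_eq_one]
    simp only [val_idx hidx]
    exact ⟨rfl, fun _ _ _ => rfl⟩)
  rw [Alg.ev_iff, hC.iff_eq_one, Alg.ev_var, Alg.ev_var, val_idx hidx, val_idx hidx] at h4
  exact hab h4

end Pool.Agent.Lib.MP_d44404_lc
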