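import Pool.Agent.Lib.MP_d44404_lc.Lin

/-!
# The criterion implies hereditary structural completeness
-/

namespace Pool.Agent.Lib.MP_d44404_lc

variable {α : Type} [HeytingAlgebra α]

/-- the function of an element under a map to formulas -/
def fn {δ : Type} (α : Type) [HeytingAlgebra α] (s : δ → Fm) (d : δ) (v : ℕ → α) : α :=
  (ha α).ev v (s d)

/-- the image of an algebra in the free algebra -/
def imAlg {δ : Type} {D : Alg δ} {s : δ → Fm} (hs : FHom α D s) : Alg (Set.range (fn α s)) where
  bot := ⟨fn α s D.bot, D.bot, rfl⟩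
  op k x y := ⟨fun v => (ha α).op k (x.1 v) (y.1 v), by
    obtain ⟨_, a, rfl⟩ := x
    obtain ⟨_, b, rfl⟩ := y
    exact ⟨D.op k a b, funext fun v => (hs v).op k a b⟩⟩

/-- the map onto the image -/
def imMap {δ : Type} (s : δ → Fm) (d : δ) : Set.range (fn α s) := ⟨fn α s d, d, rfl⟩

theorem imMap_isHom {δ : Type} {D : Alg δ} {s : δ → Fm} (hs : FHom α D s) :
    IsHom D (imAlg hs) (imMap s) where
  bot := rfl
  op k a b := Subtype.ext (funext fun v => (hs v).op k a b)

theorem imMap_surjective {δ : Type} (s : δ → Fm) : Function.Surjective (imMap (α := α) s) := by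
  rintro ⟨_, d, rfl⟩
  exact ⟨d, rfl⟩

/-- the formulas of the image -/
noncomputable def imRep {δ : Type} (s : δ → Fm) (x : Set.range (fn α s)) : Fm := s x.2.choose

theorem imRep_ev {δ : Type} (s : δ → Fm) (x : Set.range (fn α s)) (v : ℕ → α) :
    (ha α).ev v (imRep s x) = x.1 v := congrFun x.2.choose_spec v

theorem imRep_FHom {δ : Type} {D : Alg δ} {s : δ → Fm} (hs : FHom α D s) :
    FHom α (imAlg hs) (imRep s) := by
  intro v
  constructor
  · rw [imRep_ev]
    exact (hs v).bot
  · intro k a b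
    rw [imRep_ev, imRep_ev, imRep_ev]
    rfl

theorem imAlg_inQ {δ : Type} {D : Alg δ} {s : δ → Fm} (hs : FHom α D s) : InQ α (imAlg hs) := by
  intro x y hxy
  refine ⟨imRep s, imRep_FHom hs, ?_⟩
  by_contra hcon
  unfold Sep at hcon
  push Not at hcon
  apply hxy
  apply Subtype.ext
  funext v
  rw [← imRep_ev, ← imRep_ev]
  exact hcon v

theorem imMap_sep {δ : Type} {s : δ → Fm} {a b : δ} :
    Sep α (s a) (s b) ↔ imMap (α := α) s a ≠ imMap s b := by
  rw [Ne, Subtype.ext_iff]
  show Sep α (s a) (s b) ↔ ¬ fn α s a = fn α s b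
  rw [funext_iff]
  push Not
  rfl

theorem imAlg_qsi {δ : Type} [Finite δ] {D : Alg δ} {s : δ → Fm} (hs : FHom α D s) {a b : δ}
    (hab : Sep α (s a) (s b))
    (hmin : ∀ t, FHom α D t → Sep α (t a) (t b) →
      Nat.card (Set.range (fn α s)) ≤ Nat.card (Set.range (fn α t))) : QSI α (imAlg hs) := by
  refine ⟨imMap s a, imMap s b, imMap_sep.1 hab, fun t ht hsep x y hxy => ?_⟩
  have h1 := hmin _ (ht.comp (imMap_isHom hs)) hsep
  by_contra hcon
  have hcon' : imMap (α := α) t x = imMap t y := by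
    by_contra h
    exact hcon (imMap_sep.2 h)
  have hfin : Finite (Set.range (fn α s)) := inferInstance
  let g : Set.range (fn α s) → Set.range (fn α fun d => t (imMap s d)) := fun x =>
    ⟨fn α t x, by
      obtain ⟨d, rfl⟩ := imMap_surjective s x
      exact ⟨d, rfl⟩⟩
  have hg : Function.Surjective g := by
    rintro ⟨_, d, rfl⟩
    exact ⟨imMap s d, rfl⟩
  have hfin2 : Finite (Set.range (fn α fun d => t (imMap s d))) := Finite.of_surjective g hg
  have h2 : Nat.card (Set.range (fn α fun d => t (imMap s d))) ≤ Nat.card (Set.range (fn α s)) :=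
    Nat.card_le_card_of_surjective g hg
  have h3 : Function.Injective g := by
    have hbij := (Nat.bijective_iff_surjective_and_card g).2 ⟨hg, le_antisymm h1 h2⟩
    exact hbij.1
  apply hxy
  apply h3
  apply Subtype.ext
  have h4 := congrArg Subtype.val hcon'
  exact h4

/-- the natural map between Lindenbaum algebras -/
def linMap {T : DedSys} (hT : T.Extends (heytingSystem α).completion) (m : ℕ) (Γ : Set Fm) :
    Quotient (lset hT m ∅) → Quotient (lset hT m Γ) :=
  Quotient.map id fun _ _ h => T.mono _ _ _ (Set.empty_subset _) h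

theorem linMap_isHom {T : DedSys} (hT : T.Extends (heytingSystem α).completion) (m : ℕ)
    (Γ : Set Fm) : IsHom (lin hT m ∅) (lin hT m Γ) (linMap hT m Γ) where
  bot := rfl
  op k a b := by
    induction a using Quotient.inductionOn with
    | _ φ =>
      induction b using Quotient.inductionOn with
      | _ ψ => rfl

theorem linMap_surjective {T : DedSys} (hT : T.Extends (heytingSystem α).completion) (m : ℕ)
    (Γ : Set Fm) : Function.Surjective (linMap hT m Γ) := by
  intro q
  induction q using Quotient.inductionOn with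
  | _ φ => exact ⟨Quotient.mk _ φ, rfl⟩

theorem hsc_of_crit [Finite α] (hc : Crit α) :
    (heytingSystem α).completion.HereditarilyStructurallyComplete := by
  intro T hT Γ B hΓ hadm
  by_contra hder
  obtain ⟨m, hm⟩ := exists_below_set (hΓ.union (Set.finite_singleton B))
  have hmΓ : ∀ C ∈ Γ, C.subst (cutoff m) = C := fun C hC => (hm C (Or.inl hC)).cutoff
  have hmB : B.subst (cutoff m) = B := (hm B (Or.inr rfl)).cutoff
  have hfin := lin_finite hT m Γ
  have hfin0 := lin_finite hT m ∅
  have hb : Quotient.mk (lset hT m Γ) B ≠ (lin hT m Γ).one := by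
    rw [Ne, lin_eq_one hT m Γ, hmB]
    exact hder
  obtain ⟨s0, hs0, hsep0⟩ := lin_inQ hT m Γ _ _ hb
  have hex : ∃ k, ∃ s, FHom α (lin hT m Γ) s ∧
      Sep α (s (Quotient.mk (lset hT m Γ) B)) (s (lin hT m Γ).one) ∧
      Nat.card (Set.range (fn α s)) = k := ⟨_, s0, hs0, hsep0, rfl⟩
  classical
  obtain ⟨s, hs, hsep, hcard⟩ := Nat.find_spec hex
  have hmin : ∀ t, FHom α (lin hT m Γ) t →
      Sep α (t (Quotient.mk (lset hT m Γ) B)) (t (lin hT m Γ).one) →
      Nat.card (Set.range (fn α s)) ≤ Nat.card (Set.range (fn α t)) := by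
    intro t ht hsept
    rw [hcard]
    exact Nat.find_min' hex ⟨t, ht, hsept, rfl⟩
  obtain ⟨e, he, hinj⟩ := hc _ _ (imAlg hs) (lin hT m ∅) (imAlg_inQ hs) (lin_inQ hT m ∅)
    (imAlg_qsi hs hsep hmin)
    ⟨_, (imMap_isHom hs).comp (linMap_isHom hT m Γ),
      (imMap_surjective s).comp (linMap_surjective hT m Γ)⟩
  have hg0 := he.comp (imMap_isHom hs)
  set g0 : Quotient (lset hT m Γ) → Quotient (lset hT m ∅) := fun x => e (imMap s x) with hg0def
  let w : ℕ → Fm := fun i => Quotient.out (g0 (Quotient.mk _ (Fm.var i)))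
  have hw : ∀ i, Quotient.mk (lset hT m ∅) (w i) = g0 (Quotient.mk _ (Fm.var i)) := fun i =>
    Quotient.out_eq _
  have hkey : ∀ φ : Fm, g0 (Quotient.mk _ φ) = Quotient.mk _ (φ.subst w) := by
    intro φ
    have h1 : Quotient.mk (lset hT m Γ) φ =
        (lin hT m Γ).ev (fun i => Quotient.mk _ (Fm.var i)) φ := by
      rw [lin_ev, Fm.subst_var_self]
    rw [h1, hg0.ev, ← lin_ev]
    congr 1
    funext i
    exact (hw i).symm
  have h5 := hadm (fun i => (w i).subst (cutoff m)) (fun C hC => by
    rw [← Fm.subst_subst, ← lin_eq_one hT m ∅, ← hkey]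
    have h6 : Quotient.mk (lset hT m Γ) C = (lin hT m Γ).one := by
      rw [lin_eq_one hT m Γ, hmΓ C hC]
      exact T.refl _ _ hC
    rw [h6, hg0.one])
  rw [← Fm.subst_subst, ← lin_eq_one hT m ∅, ← hkey, ← hg0.one] at h5
  exact imMap_sep.1 hsep (hinj h5)

theorem hsc_iff_crit [Finite α] :
    (heytingSystem α).completion.HereditarilyStructurallyComplete ↔ Crit α :=
  ⟨crit_of_hsc, hsc_of_crit⟩

end Pool.Agent.Lib.MP_d44404_lc
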