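import Mathlib

/-!
# Deductive systems, structural completions, logics of finite Heyting algebras
-/

namespace Pool.Agent.Lib.MP_d44404_lc

/-- Formulas of intuitionistic propositional logic; the variables are `var 0, var 1, ...`. -/
inductive Fm
  | var (i : ℕ)
  | bot
  | and (φ ψ : Fm)
  | or (φ ψ : Fm)
  | imp (φ ψ : Fm)

/-- The result of the substitution `σ` in a formula. -/
def Fm.subst (σ : ℕ → Fm) : Fm → Fm
  | var i => σ i
  | bot => bot
  | and φ ψ => and (φ.subst σ) (ψ.subst σ)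
  | or φ ψ => or (φ.subst σ) (ψ.subst σ)
  | imp φ ψ => imp (φ.subst σ) (ψ.subst σ)

/-- The value of a formula in a Heyting algebra. -/
def Fm.eval {α : Type} [HeytingAlgebra α] (v : ℕ → α) : Fm → α
  | var i => v i
  | bot => ⊥
  | and φ ψ => φ.eval v ⊓ ψ.eval v
  | or φ ψ => φ.eval v ⊔ ψ.eval v
  | imp φ ψ => φ.eval v ⇨ ψ.eval v

/-- A deductive system: a structural (substitution-invariant) finitary consequence relation.
`Der Γ φ` means that `φ` is derivable from `Γ`. -/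
structure DedSys where
  Der : Set Fm → Fm → Prop
  refl : ∀ Γ φ, φ ∈ Γ → Der Γ φ
  mono : ∀ Γ Δ φ, Γ ⊆ Δ → Der Γ φ → Der Δ φ
  cut : ∀ Γ Δ φ, (∀ ψ ∈ Δ, Der Γ ψ) → Der Δ φ → Der Γ φ
  structural : ∀ (σ : ℕ → Fm) Γ φ, Der Γ φ → Der (Fm.subst σ '' Γ) (φ.subst σ)
  finitary : ∀ Γ φ, Der Γ φ → ∃ Γ' ⊆ Γ, Γ'.Finite ∧ Der Γ' φ

/-- `T` extends `S`. -/
def DedSys.Extends (T S : DedSys) : Prop := ∀ Γ φ, S.Der Γ φ → T.Der Γ φ

/-- The rule `Γ / B` is admissible in `S`. -/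
def DedSys.Admissible (S : DedSys) (Γ : Set Fm) (B : Fm) : Prop :=
  ∀ σ : ℕ → Fm, (∀ C ∈ Γ, S.Der ∅ (C.subst σ)) → S.Der ∅ (B.subst σ)

/-- Every admissible rule (with finitely many premises) is derivable. -/
def DedSys.StructurallyComplete (S : DedSys) : Prop :=
  ∀ (Γ : Set Fm) (B : Fm), Γ.Finite → S.Admissible Γ B → S.Der Γ B

/-- Every deductive system extending `S` is structurally complete. -/
def DedSys.HereditarilyStructurallyComplete (S : DedSys) : Prop :=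
  ∀ T : DedSys, T.Extends S → T.StructurallyComplete

theorem Fm.subst_subst (σ τ : ℕ → Fm) (φ : Fm) :
    (φ.subst σ).subst τ = φ.subst fun i => (σ i).subst τ := by
  induction φ with
  | var i => rfl
  | bot => rfl
  | and φ ψ ih1 ih2 => simp only [Fm.subst, ih1, ih2]
  | or φ ψ ih1 ih2 => simp only [Fm.subst, ih1, ih2]
  | imp φ ψ ih1 ih2 => simp only [Fm.subst, ih1, ih2]

/-- A set of rules with the closure properties of a consequence relation gives a deductive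
system, the derivability from a set being that from a finite subset. -/
def DedSys.ofRules (R : Set Fm → Fm → Prop) (hrefl : ∀ Γ φ, φ ∈ Γ → R Γ φ)
    (hmono : ∀ Γ Δ φ, Γ ⊆ Δ → R Γ φ → R Δ φ)
    (hcut : ∀ Γ Δ φ, (∀ ψ ∈ Δ, R Γ ψ) → R Δ φ → R Γ φ)
    (hstr : ∀ (σ : ℕ → Fm) Γ φ, R Γ φ → R (Fm.subst σ '' Γ) (φ.subst σ)) : DedSys where
  Der Γ φ := ∃ Γ' ⊆ Γ, Γ'.Finite ∧ R Γ' φ
  refl Γ φ h := ⟨{φ}, by simpa using h, Set.finite_singleton φ, hrefl _ _ rfl⟩
  mono Γ Δ φ h := fun ⟨Γ', h1, h2, h3⟩ => ⟨Γ', h1.trans h, h2, h3⟩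
  cut Γ Δ φ h := by
    rintro ⟨Δ', h1, h2, h3⟩
    choose! G hG using fun ψ hψ => h ψ (h1 hψ)
    refine ⟨⋃ ψ ∈ Δ', G ψ, ?_, h2.biUnion fun ψ hψ => (hG ψ hψ).2.1, ?_⟩
    · simp only [Set.iUnion_subset_iff]
      exact fun ψ hψ => (hG ψ hψ).1
    · refine hcut _ _ _ (fun ψ hψ => hmono _ _ _ ?_ (hG ψ hψ).2.2) h3
      exact Set.subset_biUnion_of_mem hψ
  structural σ Γ φ := fun ⟨Γ', h1, h2, h3⟩ =>
    ⟨Fm.subst σ '' Γ', Set.image_mono h1, h2.image _, hstr σ _ _ h3⟩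
  finitary Γ φ := fun ⟨Γ', h1, h2, h3⟩ => ⟨Γ', h1, h2, Γ', subset_rfl, h2, h3⟩

/-- The structural completion of a deductive system, obtained by adding all admissible rules:
`φ` is derivable from `Γ` iff `Γ' / φ` is admissible for some finite subset `Γ'` of `Γ`. -/
def DedSys.completion (S : DedSys) : DedSys :=
  DedSys.ofRules S.Admissible (fun Γ φ h σ hσ => hσ φ h)
    (fun Γ Δ φ h hφ σ hσ => hφ σ fun C hC => hσ C (h hC))
    (fun Γ Δ φ h hφ σ hσ => hφ σ fun C hC => h C hC σ hσ)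
    (fun τ Γ φ h σ hσ => by
      rw [Fm.subst_subst]
      refine h _ fun C hC => ?_
      rw [← Fm.subst_subst]
      exact hσ _ (Set.mem_image_of_mem _ hC))

/-- Derivability from the set `H` by modus ponens alone. -/
inductive MPDer (H : Set Fm) : Fm → Prop
  | hyp {φ : Fm} (h : φ ∈ H) : MPDer H φ
  | mp {φ ψ : Fm} (h₁ : MPDer H (φ.imp ψ)) (h₂ : MPDer H φ) : MPDer H ψ

theorem MPDer.mono {H H' : Set Fm} (h : H ⊆ H') {φ : Fm} (hφ : MPDer H φ) : MPDer H' φ := by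
  induction hφ with
  | hyp h1 => exact .hyp (h h1)
  | mp _ _ ih1 ih2 => exact .mp ih1 ih2

theorem MPDer.cut {H H' : Set Fm} (h : ∀ ψ ∈ H, MPDer H' ψ) {φ : Fm} (hφ : MPDer H φ) :
    MPDer H' φ := by
  induction hφ with
  | hyp h1 => exact h _ h1
  | mp _ _ ih1 ih2 => exact .mp ih1 ih2

theorem MPDer.subst (σ : ℕ → Fm) {H : Set Fm} {φ : Fm} (hφ : MPDer H φ) :
    MPDer (Fm.subst σ '' H) (φ.subst σ) := by
  induction hφ with
  | hyp h1 => exact .hyp (Set.mem_image_of_mem _ h1)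
  | mp _ _ ih1 ih2 => exact .mp ih1 ih2

theorem MPDer.finite {H : Set Fm} {φ : Fm} (hφ : MPDer H φ) :
    ∃ H' ⊆ H, H'.Finite ∧ MPDer H' φ := by
  induction hφ with
  | @hyp φ h1 => exact ⟨{φ}, by simpa using h1, Set.finite_singleton _, .hyp rfl⟩
  | mp _ _ ih1 ih2 =>
    obtain ⟨A, a1, a2, a3⟩ := ih1
    obtain ⟨B, b1, b2, b3⟩ := ih2
    exact ⟨A ∪ B, Set.union_subset a1 b1, a2.union b2,
      .mp (a3.mono Set.subset_union_left) (b3.mono Set.subset_union_right)⟩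

/-- The deductive system `⟨L, MP⟩` for a set `L` of formulas closed under substitution: `φ` is
derivable from `Γ` iff it is obtained from `L ∪ Γ` by modus ponens alone. -/
def mpSystem (L : Set Fm) (hL : ∀ φ ∈ L, ∀ σ, φ.subst σ ∈ L) : DedSys where
  Der Γ φ := MPDer (L ∪ Γ) φ
  refl Γ φ h := .hyp (Or.inr h)
  mono Γ Δ φ h hφ := hφ.mono (Set.union_subset_union_right _ h)
  cut Γ Δ φ h hφ := hφ.cut (by
    rintro ψ (hψ | hψ)
    · exact .hyp (Or.inl hψ)
    · exact h ψ hψ)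
  structural σ Γ φ hφ := (hφ.subst σ).mono (by
    rintro _ ⟨ψ, hψ | hψ, rfl⟩
    · exact Or.inl (hL ψ hψ σ)
    · exact Or.inr ⟨ψ, hψ, rfl⟩)
  finitary Γ φ hφ := by
    obtain ⟨H, h1, h2, h3⟩ := hφ.finite
    refine ⟨H ∩ Γ, Set.inter_subset_right, h2.subset Set.inter_subset_left, h3.mono ?_⟩
    intro ψ hψ
    rcases h1 hψ with h | h
    · exact Or.inl h
    · exact Or.inr ⟨hψ, h⟩

/-- The logic of a Heyting algebra: the formulas that evaluate to `1` under every assignment. -/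
def logic (α : Type) [HeytingAlgebra α] : Set Fm := {φ | ∀ v : ℕ → α, φ.eval v = ⊤}

theorem Fm.eval_subst {α : Type} [HeytingAlgebra α] (v : ℕ → α) (σ : ℕ → Fm) (φ : Fm) :
    (φ.subst σ).eval v = φ.eval fun i => (σ i).eval v := by
  induction φ with
  | var i => rfl
  | bot => rfl
  | and φ ψ ih1 ih2 => simp only [Fm.subst, Fm.eval, ih1, ih2]
  | or φ ψ ih1 ih2 => simp only [Fm.subst, Fm.eval, ih1, ih2]
  | imp φ ψ ih1 ih2 => simp only [Fm.subst, Fm.eval, ih1, ih2]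

/-- The deductive system `⟨L(α), MP⟩` of a Heyting algebra. -/
def heytingSystem (α : Type) [HeytingAlgebra α] : DedSys :=
  mpSystem (logic α) fun φ hφ σ v => by rw [Fm.eval_subst]; exact hφ _

/-- The table of a binary operation with respect to the enumeration `e` of the elements. -/
def opTable {α : Type} {n : ℕ} (e : α ≃ Fin n) (f : α → α → α) : List ℕ :=
  (List.finRange n).flatMap fun i => (List.finRange n).map fun j => (e (f (e.symm i) (e.symm j)) : ℕ)

/-- The Goedel number of the operation tables of a finite Heyting algebra, with respect to an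
enumeration of its elements. -/
def tableCode {α : Type} [HeytingAlgebra α] {n : ℕ} (e : α ≃ Fin n) : ℕ :=
  Encodable.encode (n, opTable e (· ⊓ ·), opTable e (· ⊔ ·), opTable e (· ⇨ ·),
    (e ⊥ : ℕ), (e ⊤ : ℕ))

end Pool.Agent.Lib.MP_d44404_lc
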