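import Pool.Agent.Lib.MP_d44404_lc.Crit2

/-!
# Coding of finite functions and finite algebras by numbers
-/

namespace Pool.Agent.Lib.MP_d44404_lc

/-- digit number `p` of `q` in base `b` -/
def dig (b q p : ℕ) : ℕ := q / b ^ p % b

theorem dig_lt {b : ℕ} (hb : 0 < b) (q p : ℕ) : dig b q p < b := Nat.mod_lt _ hb

theorem exists_dig {a b : ℕ} (f : ℕ → ℕ) (hf : ∀ p < a, f p < b) :
    ∃ q < b ^ a, ∀ p < a, dig b q p = f p := by
  induction a with
  | zero => exact ⟨0, by simp, by simp⟩
  | succ a ih =>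
    obtain ⟨q, hq, h⟩ := ih fun p hp => hf p (by omega)
    have hb : 0 < b := lt_of_le_of_lt (Nat.zero_le _) (hf a (by omega))
    refine ⟨q + b ^ a * f a, ?_, ?_⟩
    · have h1 : b ^ a * f a + b ^ a ≤ b ^ (a + 1) := by
        rw [pow_succ, ← Nat.mul_succ]
        exact Nat.mul_le_mul_left _ (hf a (by omega))
      omega
    · intro p hp
      rcases Nat.lt_succ_iff_lt_or_eq.1 hp with hp | rfl
      · rw [← h p hp]
        unfold dig
        obtain ⟨r, rfl⟩ := Nat.exists_eq_add_of_lt hp
        have h2 : b ^ (p + r + 1) * f (p + r + 1) = b ^ p * (b * (b ^ r * f (p + r + 1))) := by ring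
        rw [h2, Nat.add_mul_div_left _ _ (pow_pos hb _), Nat.add_mul_mod_self_left]
      · unfold dig
        rw [Nat.add_mul_div_left _ _ (pow_pos hb _), Nat.div_eq_of_lt hq, Nat.zero_add,
          Nat.mod_eq_of_lt (hf _ (by omega))]

theorem dig_inj {a b q q' : ℕ} (hq : q < b ^ a) (hq' : q' < b ^ a)
    (h : ∀ p < a, dig b q p = dig b q' p) : q = q' := by
  induction a generalizing q q' with
  | zero =>
    rw [pow_zero] at hq hq'
    omega
  | succ a ih =>
    have h0 : q % b = q' % b := by
      have := h 0 (by omega)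
      simpa [dig] using this
    have h1 : q / b = q' / b := by
      apply ih
      · rw [pow_succ] at hq
        exact Nat.div_lt_of_lt_mul (by rwa [mul_comm])
      · rw [pow_succ] at hq'
        exact Nat.div_lt_of_lt_mul (by rwa [mul_comm])
      · intro p hp
        have := h (p + 1) (by omega)
        unfold dig at this ⊢
        rw [pow_succ'] at this
        rwa [Nat.div_div_eq_div_mul, Nat.div_div_eq_div_mul]
    rw [← Nat.div_add_mod q b, ← Nat.div_add_mod q' b, h0, h1]

/-- every function between initial segments has a code -/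
theorem exists_dig_fin {a b : ℕ} (f : Fin a → Fin b) :
    ∃ q < b ^ a, ∀ p : Fin a, dig b q p = f p := by
  obtain ⟨q, hq, h⟩ := exists_dig (a := a) (b := b)
    (fun p => if hp : p < a then (f ⟨p, hp⟩ : ℕ) else 0)
    (fun p hp => by simp only [hp, dif_pos]; exact (f _).2)
  refine ⟨q, hq, fun p => ?_⟩
  rw [h p p.2]
  simp

/-- operations of the algebra with number `t` on `c` elements -/
def nop (c t k i j : ℕ) : ℕ := dig c t ((k * c + i) * c + j)

/-- the constant of the algebra with number `t` on `c` elements -/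
def nbot (c t : ℕ) : ℕ := dig c t (3 * c * c)

/-- the algebra with number `t` on `c` elements -/
def NA (c t : ℕ) (hc : 0 < c) : Alg (Fin c) where
  bot := ⟨nbot c t, dig_lt hc _ _⟩
  op k i j := ⟨nop c t k i j, dig_lt hc _ _⟩

theorem exists_NA {c : ℕ} (hc : 0 < c) (C : Alg (Fin c)) :
    ∃ t < c ^ (3 * c * c + 1), NA c t hc = C := by
  have h3 : ∀ p, p < 3 * c * c → p / c / c < 3 := by
    intro p hp
    rw [Nat.div_div_eq_div_mul, Nat.div_lt_iff_lt_mul (Nat.mul_pos hc hc)]
    calc p < 3 * c * c := hp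
      _ = 3 * (c * c) := by ring
  let f : ℕ → ℕ := fun p => if hp : p < 3 * c * c then
    (C.op ⟨p / c / c, h3 p hp⟩ ⟨p / c % c, Nat.mod_lt _ hc⟩ ⟨p % c, Nat.mod_lt _ hc⟩ : ℕ)
    else (C.bot : ℕ)
  obtain ⟨t, ht, h⟩ := exists_dig (a := 3 * c * c + 1) (b := c) f (by
    intro p _
    by_cases hp : p < 3 * c * c
    · simp only [f, hp, dif_pos]
      exact Fin.isLt _
    · simp only [f, hp, dif_neg, not_false_iff]
      exact Fin.isLt _)
  refine ⟨t, ht, ?_⟩
  have hbot : nbot c t = C.bot := by
    unfold nbot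
    rw [h _ (by omega)]
    simp [f]
  have hop : ∀ (k : Fin 3) (i j : Fin c), nop c t k i j = C.op k i j := by
    intro k i j
    have e1 : ((k * c + i) * c + j : ℕ) < 3 * c * c := by
      have hk := k.2
      have hi := i.2
      have hj := j.2
      calc ((k * c + i) * c + j : ℕ) < (k * c + i) * c + c := by omega
        _ = (k * c + i + 1) * c := by ring
        _ ≤ (k * c + c) * c := Nat.mul_le_mul_right _ (by omega)
        _ = (k + 1) * c * c := by ring
        _ ≤ 3 * c * c := Nat.mul_le_mul_right _ (Nat.mul_le_mul_right _ (by omega))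
    have e2 : ((k * c + i) * c + j : ℕ) / c = k * c + i := by
      rw [mul_comm _ c, Nat.mul_add_div hc, Nat.div_eq_of_lt j.2, add_zero]
    have e3 : ((k * c + i) * c + j : ℕ) % c = j := by
      rw [mul_comm _ c, Nat.mul_add_mod, Nat.mod_eq_of_lt j.2]
    have e4 : ((k : ℕ) * c + i) / c = k := by
      rw [mul_comm _ c, Nat.mul_add_div hc, Nat.div_eq_of_lt i.2, add_zero]
    have e5 : ((k : ℕ) * c + i) % c = i := by
      rw [mul_comm _ c, Nat.mul_add_mod, Nat.mod_eq_of_lt i.2]
    unfold nop
    rw [h _ (by omega)]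
    simp only [f, e1, dif_pos, e2, e3, e4, e5]
  obtain ⟨bot, op⟩ := C
  simp only [NA, Alg.mk.injEq]
  refine ⟨Fin.ext hbot, ?_⟩
  funext k i j
  exact Fin.ext (hop k i j)

end Pool.Agent.Lib.MP_d44404_lc
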