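import Pool.Agent.Lib.MP_d44404_lc.Crit1

/-!
# Lindenbaum algebras of extensions of the structural completion
-/

namespace Pool.Agent.Lib.MP_d44404_lc

variable {α : Type} [HeytingAlgebra α]

theorem ha_iff_one {a b : α} : (ha α).iff a b = (ha α).one ↔ a = b := by
  rw [ha_one, ha_iff]

theorem admissible_of_valid {Δ : Set Fm} {φ : Fm} (hv : (ha α).Valid Δ φ) :
    (heytingSystem α).Admissible Δ φ := by
  intro σ hσ
  rw [heytingSystem_thm, mem_logic]
  intro v
  rw [Alg.ev_subst, ← ha_one]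
  refine hv _ fun ψ hψ => ?_
  have := hσ ψ hψ
  rw [heytingSystem_thm, mem_logic] at this
  rw [← Alg.ev_subst, this v, ha_one]

theorem der_rule {T : DedSys} (hT : T.Extends (heytingSystem α).completion) {Γ Δ : Set Fm}
    {φ : Fm} (hΔ : Δ.Finite) (hv : (heytingSystem α).Admissible Δ φ)
    (h : ∀ ψ ∈ Δ, T.Der Γ ψ) : T.Der Γ φ :=
  T.cut _ _ _ h (hT _ _ ⟨Δ, subset_rfl, hΔ, hv⟩)

theorem der_rule' {T : DedSys} (hT : T.Extends (heytingSystem α).completion) {Γ Δ : Set Fm}
    {φ : Fm} (hΔ : Δ.Finite) (hv : (ha α).Valid Δ φ) (h : ∀ ψ ∈ Δ, T.Der Γ ψ) : T.Der Γ φ :=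
  der_rule hT hΔ (admissible_of_valid hv) h

/-- equivalence of formulas modulo a theory -/
def lset {T : DedSys} (hT : T.Extends (heytingSystem α).completion) (m : ℕ) (Γ : Set Fm) :
    Setoid Fm where
  r φ ψ := T.Der Γ (Fm.iff (φ.subst (cutoff m)) (ψ.subst (cutoff m)))
  iseqv := {
    refl := fun φ => der_rule' hT (Δ := ∅) Set.finite_empty
      (fun v _ => by rw [Alg.ev_iff, ha_iff_one]) (by simp)
    symm := fun {φ ψ} h => der_rule' hT (Set.finite_singleton _)
      (fun v hv => by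
        have := hv _ rfl
        rw [Alg.ev_iff, ha_iff_one] at this ⊢
        exact this.symm) (by simpa using h)
    trans := fun {φ ψ χ} h1 h2 => der_rule' hT
      (Δ := {Fm.iff (φ.subst (cutoff m)) (ψ.subst (cutoff m)),
        Fm.iff (ψ.subst (cutoff m)) (χ.subst (cutoff m))}) (Set.toFinite _)
      (fun v hv => by
        have e1 := hv _ (Or.inl rfl)
        have e2 := hv _ (Or.inr rfl)
        rw [Alg.ev_iff, ha_iff_one] at e1 e2 ⊢
        exact e1.trans e2)
      (by
        rintro _ (rfl | rfl)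
        · exact h1
        · exact h2) }

/-- Lindenbaum algebra -/
def lin {T : DedSys} (hT : T.Extends (heytingSystem α).completion) (m : ℕ) (Γ : Set Fm) :
    Alg (Quotient (lset hT m Γ)) where
  bot := Quotient.mk _ Fm.bot
  op k := Quotient.map₂ (Fm.op k) (by
    intro φ φ' h1 ψ ψ' h2
    refine der_rule' hT
      (Δ := {Fm.iff (φ.subst (cutoff m)) (φ'.subst (cutoff m)),
        Fm.iff (ψ.subst (cutoff m)) (ψ'.subst (cutoff m))}) (Set.toFinite _)
      (fun v hv => ?_) ?_
    · have e1 := hv _ (Or.inl rfl)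
      have e2 := hv _ (Or.inr rfl)
      rw [Alg.ev_iff, ha_iff_one] at e1 e2 ⊢
      rw [Fm.subst_op, Fm.subst_op, Alg.ev_op, Alg.ev_op, e1, e2]
    · rintro _ (rfl | rfl)
      · exact h1
      · exact h2)

section lin

variable {T : DedSys} (hT : T.Extends (heytingSystem α).completion) (m : ℕ) (Γ : Set Fm)

theorem lin_op (k : Fin 3) (φ ψ : Fm) : (lin hT m Γ).op k (Quotient.mk _ φ) (Quotient.mk _ ψ) =
    Quotient.mk _ (Fm.op k φ ψ) := rfl

theorem lin_ev (w : ℕ → Fm) (φ : Fm) :
    (lin hT m Γ).ev (fun i => Quotient.mk _ (w i)) φ = Quotient.mk _ (φ.subst w) := by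
  induction φ using Fm.rec' with
  | hv i => rfl
  | hb => rfl
  | ho k φ ψ h1 h2 => rw [Alg.ev_op, h1, h2, lin_op, Fm.subst_op]

theorem lin_eq {φ ψ : Fm} : (Quotient.mk (lset hT m Γ) φ) = Quotient.mk _ ψ ↔
    T.Der Γ (Fm.iff (φ.subst (cutoff m)) (ψ.subst (cutoff m))) := Quotient.eq

theorem lin_eq_one {φ : Fm} : (Quotient.mk _ φ) = (lin hT m Γ).one ↔
    T.Der Γ (φ.subst (cutoff m)) := by
  have h1 : (lin hT m Γ).one = Quotient.mk _ (Fm.imp .bot .bot) := rfl
  rw [h1, lin_eq]
  constructor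
  · intro h
    refine der_rule' hT (Set.finite_singleton _) (fun v hv => ?_) (by simpa using h)
    have := hv _ rfl
    rw [Alg.ev_iff, ha_iff_one] at this
    rw [this]
    rfl
  · intro h
    refine der_rule' hT (Set.finite_singleton _) (fun v hv => ?_) (by simpa using h)
    have := hv _ rfl
    rw [Alg.ev_iff, ha_iff_one]
    rw [this]
    rfl

/-- extension of a finite valuation -/
def ext (u : Fin m → α) (i : ℕ) : α := if h : i < m then u ⟨i, h⟩ else ⊥

theorem ev_cutoff (v : ℕ → α) (φ : Fm) : (ha α).ev v (φ.subst (cutoff m)) =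
    (ha α).ev (ext m fun i : Fin m => v i) (φ.subst (cutoff m)) := by
  rw [Alg.ev_subst, Alg.ev_subst]
  congr 1
  funext i
  unfold cutoff
  split_ifs with h
  · simp [ext, h]
  · rfl

theorem lin_finite [Finite α] : Finite (Quotient (lset hT m Γ)) := by
  let F : Fm → ((Fin m → α) → α) := fun φ u => (ha α).ev (ext m u) (φ.subst (cutoff m))
  have hF : ∀ φ ψ, F φ = F ψ → Quotient.mk (lset hT m Γ) φ = Quotient.mk _ ψ := by
    intro φ ψ h
    rw [lin_eq]
    refine der_rule' hT (Δ := ∅) Set.finite_empty (fun v _ => ?_) (by simp)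
    rw [Alg.ev_iff, ha_iff_one, ev_cutoff, ev_cutoff m v ψ]
    exact congrFun h _
  let g : {f : (Fin m → α) → α // ∃ φ, F φ = f} → Quotient (lset hT m Γ) := fun f =>
    Quotient.mk _ f.2.choose
  refine Finite.of_surjective g ?_
  intro q
  induction q using Quotient.inductionOn with
  | _ φ =>
    refine ⟨⟨F φ, φ, rfl⟩, ?_⟩
    apply hF
    have h : ∃ ψ, F ψ = F φ := ⟨φ, rfl⟩
    exact h.choose_spec

theorem lin_inQ [Finite α] : InQ α (lin hT m Γ) := by
  have hfin := lin_finite hT m Γ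
  intro a b hab
  by_contra hcon
  push Not at hcon
  obtain ⟨idx, hidx⟩ := exists_idx (Quotient (lset hT m Γ))
  let rep : Quotient (lset hT m Γ) → Fm := Quotient.out
  have hrep : ∀ q, Quotient.mk (lset hT m Γ) (rep q) = q := fun q => Quotient.out_eq q
  have hadm : (heytingSystem α).Admissible ((lin hT m Γ).diag idx)
      (Fm.iff (.var (idx a)) (.var (idx b))) := by
    intro σ hσ
    rw [heytingSystem_thm, mem_logic]
    have hs : FHom α (lin hT m Γ) fun x => σ (idx x) := by
      intro v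
      rw [← ev_diag (D := ha α) (v := fun i => (ha α).ev v (σ i)) (fun a b => ha_iff_one (α := α))]
      intro ψ hψ
      have := hσ ψ hψ
      rw [heytingSystem_thm, mem_logic] at this
      rw [← Alg.ev_subst, this v, ha_one]
    have h2 := hcon _ hs
    unfold Sep at h2
    push Not at h2
    intro v
    rw [Fm.subst_iff, Alg.ev_iff, ha_iff]
    exact h2 v
  let ρ : ℕ → Fm := val idx (fun q => (rep q).subst (cutoff m)) Fm.bot
  have hρ : ∀ q, ρ (idx q) = (rep q).subst (cutoff m) := fun q => val_idx hidx _ _ q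
  have hadm' : (heytingSystem α).Admissible (Fm.subst ρ '' (lin hT m Γ).diag idx)
      ((Fm.iff (.var (idx a)) (.var (idx b))).subst ρ) := by
    intro σ hσ
    rw [Fm.subst_subst]
    refine hadm _ fun C hC => ?_
    rw [← Fm.subst_subst]
    exact hσ _ (Set.mem_image_of_mem _ hC)
  have h3 : T.Der Γ ((Fm.iff (.var (idx a)) (.var (idx b))).subst ρ) := by
    refine der_rule hT (((lin hT m Γ).diag_finite idx).image _) hadm' ?_
    rintro _ ⟨ψ, hψ, rfl⟩
    simp only [Alg.diag, Set.union_def, Set.mem_singleton_iff, Set.mem_range,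
      Set.mem_ofPred_eq] at hψ
    rcases hψ with rfl | ⟨⟨k, x, y⟩, rfl⟩
    · rw [Fm.subst_iff, Fm.subst_var, Fm.subst_bot, hρ]
      have h4 : Quotient.mk (lset hT m Γ) (rep (lin hT m Γ).bot) = Quotient.mk _ Fm.bot := hrep _
      rw [lin_eq] at h4
      exact h4
    · rw [Fm.subst_iff, Fm.subst_var, Fm.subst_op, Fm.subst_var, Fm.subst_var, hρ, hρ, hρ]
      have h4 : Quotient.mk (lset hT m Γ) (rep ((lin hT m Γ).op k x y)) =
          Quotient.mk _ (Fm.op k (rep x) (rep y)) := by
        rw [hrep, ← lin_op, hrep, hrep]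
      rw [lin_eq, Fm.subst_op] at h4
      exact h4
  rw [Fm.subst_iff, Fm.subst_var, Fm.subst_var, hρ, hρ, ← lin_eq hT m Γ, hrep, hrep] at h3
  exact hab h3

end lin

end Pool.Agent.Lib.MP_d44404_lc
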