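import Pool.Agent.Lib.MP_d44404_lc.Prim

/-!
# The algorithm
-/

namespace Pool.Agent.Lib.MP_d44404_lc

theorem getD_flatMap {n m : ℕ} (g : Fin n → Fin m → ℕ) (l : List (Fin n)) (k : ℕ) (j : Fin m) :
    (l.flatMap fun i => (List.finRange m).map fun j => g i j).getD (k * m + j) 0 =
      (l[k]?).elim 0 fun i => g i j := by
  induction l generalizing k with
  | nil => simp
  | cons a l ih =>
    rw [List.flatMap_cons]
    cases k with
    | zero =>
      rw [zero_mul, zero_add, List.getD_append _ _ _ _ (by simp)]
      simp [List.getD_eq_getElem?_getD]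
    | succ k =>
      rw [List.getD_append_right _ _ _ _ (by
        simp only [List.length_map, List.length_finRange]
        calc m ≤ m + (k * m + j) := Nat.le_add_right _ _
          _ = (k + 1) * m + j := by ring)]
      have h1 : (k + 1) * m + (j : ℕ) - ((List.finRange m).map fun j => g a j).length =
          k * m + j := by
        simp only [List.length_map, List.length_finRange]
        have : (k + 1) * m = k * m + m := by ring
        omega
      rw [h1, ih]
      simp

theorem opTable_getD {α : Type} {n : ℕ} (e : α ≃ Fin n) (f : α → α → α) (i j : Fin n) :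
    (opTable e f).getD (i * n + j) 0 = e (f (e.symm i) (e.symm j)) := by
  unfold opTable
  rw [getD_flatMap (fun i j => ((e (f (e.symm i) (e.symm j)) : Fin n) : ℕ))]
  simp

/-- the type of the decoded inputs -/
abbrev Inp := ℕ × List ℕ × List ℕ × List ℕ × ℕ × ℕ

/-- the condition that is checked -/
def Check (x : Inp) : Prop :=
  ∃ tA < x.1 ^ (3 * x.1 * x.1 + 1),
    ((∀ i < x.1, ∀ j < x.1, nop x.1 tA 0 i j = x.2.1.getD (i * x.1 + j) 0) ∧
    (∀ i < x.1, ∀ j < x.1, nop x.1 tA 1 i j = x.2.2.1.getD (i * x.1 + j) 0) ∧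
    (∀ i < x.1, ∀ j < x.1, nop x.1 tA 2 i j = x.2.2.2.1.getD (i * x.1 + j) 0) ∧
    nbot x.1 tA = x.2.2.2.2.1) ∧ NCrit x.1 tA

theorem check_iff {α : Type} [HeytingAlgebra α] {n : ℕ} (e : α ≃ Fin n) :
    Check (n, opTable e (· ⊓ ·), opTable e (· ⊔ ·), opTable e (· ⇨ ·), (e ⊥ : ℕ), (e ⊤ : ℕ)) ↔
      (heytingSystem α).completion.HereditarilyStructurallyComplete := by
  have hfin : Finite α := Finite.of_equiv _ e.symm
  have hn : 0 < n := lt_of_le_of_lt (Nat.zero_le _) (e ⊥).2
  rw [hsc_iff_crit]
  constructor
  · rintro ⟨tA, _, ⟨h0, h1, h2, hb⟩, h⟩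
    have hA : IsHom (ha α) (NA n tA hn) e := by
      constructor
      · exact Fin.ext hb.symm
      · intro k a b
        apply Fin.ext
        match k with
        | 0 =>
          have := h0 (e a) (e a).2 (e b) (e b).2
          simp only [] at this
          rw [opTable_getD, Equiv.symm_apply_apply, Equiv.symm_apply_apply] at this
          exact this.symm
        | 1 =>
          have := h1 (e a) (e a).2 (e b) (e b).2
          simp only [] at this
          rw [opTable_getD, Equiv.symm_apply_apply, Equiv.symm_apply_apply] at this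
          exact this.symm
        | 2 =>
          have := h2 (e a) (e a).2 (e b) (e b).2
          simp only [] at this
          rw [opTable_getD, Equiv.symm_apply_apply, Equiv.symm_apply_apply] at this
          exact this.symm
    rw [crit_iff e hn hA]
    exact h
  · intro h
    obtain ⟨tA, ht, hAeq⟩ := exists_NA hn ((ha α).transport e)
    have hA : IsHom (ha α) (NA n tA hn) e := by
      rw [hAeq]
      exact transport_isHom _ _
    have hop : ∀ (k : Fin 3) (i j : Fin n), nop n tA k i j =
        (e ((ha α).op k (e.symm i) (e.symm j)) : ℕ) := by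
      intro k i j
      rw [e_op e hn hA, Equiv.apply_symm_apply, Equiv.apply_symm_apply]
    refine ⟨tA, ht, ⟨?_, ?_, ?_, ?_⟩, ?_⟩
    · intro i hi j hj
      exact (hop 0 ⟨i, hi⟩ ⟨j, hj⟩).trans (opTable_getD e _ ⟨i, hi⟩ ⟨j, hj⟩).symm
    · intro i hi j hj
      exact (hop 1 ⟨i, hi⟩ ⟨j, hj⟩).trans (opTable_getD e _ ⟨i, hi⟩ ⟨j, hj⟩).symm
    · intro i hi j hj
      exact (hop 2 ⟨i, hi⟩ ⟨j, hj⟩).trans (opTable_getD e _ ⟨i, hi⟩ ⟨j, hj⟩).symm
    · exact (e_bot e hn hA).symm
    · exact (crit_iff e hn hA).1 h

attribute [local fun_prop] Primrec prim_id prim_const prim_comp prim_fst prim_snd prim_mk prim_add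
  prim_mul prim_div prim_mod prim_pow prim_dig prim_nop prim_nbot prim_NF

@[local fun_prop] theorem prim_getD {β : Type} [Primcodable β] {l : β → List ℕ} {i : β → ℕ}
    (hl : Primrec l) (hi : Primrec i) : Primrec fun x => (l x).getD (i x) 0 :=
  (Primrec.list_getD 0).comp hl hi

theorem pp_check : PrimrecPred Check := by
  unfold Check
  refine pp_ex ?_ (pp_and ?_ (pp_NCrit ?_ ?_))
  · fun_prop
  · (repeat' (with_reducible first
        | refine pp_all ?_ ?_
        | refine pp_ex ?_ ?_
        | refine pp_and ?_ ?_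
        | refine pp_ne ?_ ?_
        | refine pp_imp ?_ ?_
        | refine pp_eq ?_ ?_
        | refine pp_lt ?_ ?_)) <;> fun_prop
  · fun_prop
  · fun_prop

theorem main : ∃ f : ℕ → Bool, Computable f ∧
    ∀ (α : Type) [HeytingAlgebra α] (n : ℕ) (e : α ≃ Fin n),
      (f (tableCode e) = true ↔
        (heytingSystem α).completion.HereditarilyStructurallyComplete) := by
  obtain ⟨hdec, hp⟩ := pp_check
  refine ⟨fun x => ((Encodable.decode (α := Inp) x).map fun y => decide (Check y)).getD false,
    ?_, ?_⟩
  · apply Primrec.to_comp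
    exact Primrec.option_getD.comp (Primrec.option_map Primrec.decode (hp.comp Primrec.snd).to₂)
      (Primrec.const false)
  · intro α _ n e
    rw [← check_iff e]
    simp only [tableCode, Encodable.encodek, Option.map_some, Option.getD_some,
      decide_eq_true_eq]

end Pool.Agent.Lib.MP_d44404_lc
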