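import Pool.Agent.Lib.MP_d44404_lc.Dig

/-!
# The criterion in terms of codes
-/

namespace Pool.Agent.Lib.MP_d44404_lc

/-- number of functions of `n` variables on a set of `n` elements -/
def NF (n : ℕ) : ℕ := n ^ (n ^ n)

/-- `S` codes a set of functions that contains the projections and the constant, and is closed
under the operations -/
def Closed (n tA S : ℕ) : Prop :=
  (∀ i < n, ∀ q < NF n, (∀ p < n ^ n, dig n q p = dig n p i) → dig 2 S q = 1) ∧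
  (∀ q < NF n, (∀ p < n ^ n, dig n q p = nbot n tA) → dig 2 S q = 1) ∧
  ∀ k < 3, ∀ q1 < NF n, ∀ q2 < NF n, ∀ q < NF n, dig 2 S q1 = 1 → dig 2 S q2 = 1 →
    (∀ p < n ^ n, dig n q p = nop n tA k (dig n q1 p) (dig n q2 p)) → dig 2 S q = 1

/-- `q` codes a function defined by a formula -/
def Cl (n tA q : ℕ) : Prop := ∀ S < 2 ^ NF n, Closed n tA S → dig 2 S q = 1

/-- `h` codes a homomorphism to the free algebra on `n` generators -/
def NFHom (n tA c t h : ℕ) : Prop :=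
  (∀ x < c, Cl n tA (dig (NF n) h x)) ∧
  (∀ p < n ^ n, dig n (dig (NF n) h (nbot c t)) p = nbot n tA) ∧
  ∀ k < 3, ∀ i < c, ∀ j < c, ∀ p < n ^ n, dig n (dig (NF n) h (nop c t k i j)) p =
    nop n tA k (dig n (dig (NF n) h i) p) (dig n (dig (NF n) h j) p)

/-- membership in the quasivariety -/
def NInQ (n tA c t : ℕ) : Prop :=
  ∀ a < c, ∀ b < c, a ≠ b → ∃ h < NF n ^ c, NFHom n tA c t h ∧ dig (NF n) h a ≠ dig (NF n) h b

/-- relative subdirect irreducibility -/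
def NQSI (n tA c t : ℕ) : Prop :=
  ∃ a < c, ∃ b < c, a ≠ b ∧ ∀ h < NF n ^ c, NFHom n tA c t h →
    dig (NF n) h a ≠ dig (NF n) h b → ∀ x < c, ∀ y < c, x ≠ y → dig (NF n) h x ≠ dig (NF n) h y

/-- homomorphisms between numbered algebras -/
def NHom (c t d t' h : ℕ) : Prop :=
  dig d h (nbot c t) = nbot d t' ∧
  ∀ k < 3, ∀ i < c, ∀ j < c, dig d h (nop c t k i j) = nop d t' k (dig d h i) (dig d h j)

/-- the criterion -/
def NCrit (n tA : ℕ) : Prop :=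
  ∀ c < NF n + 1, ∀ d < n ^ (n ^ c) + 1, ∀ t < c ^ (3 * c * c + 1), ∀ t' < d ^ (3 * d * d + 1),
    0 < c → 0 < d → NInQ n tA c t → NInQ n tA d t' → NQSI n tA c t →
    (∃ π < c ^ d, NHom d t' c t π ∧ ∀ x < c, ∃ y < d, dig c π y = x) →
    ∃ h < d ^ c, NHom c t d t' h ∧ ∀ x < c, ∀ y < c, x ≠ y → dig d h x ≠ dig d h y

section

variable {α : Type} [HeytingAlgebra α] {n tA : ℕ} (e : α ≃ Fin n) (hn : 0 < n)

/-- the valuation with code `p` -/
def W (p : ℕ) : ℕ → α := ext n fun i : Fin n => e.symm ⟨dig n p i, dig_lt hn p i⟩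

/-- `q` is the code of the function of the formula `φ` -/
def Rep (q : ℕ) (φ : Fm) : Prop := ∀ p < n ^ n, dig n q p = e ((ha α).ev (W e hn p) φ)

theorem W_lt {p i : ℕ} (hi : i < n) : W e hn p i = e.symm ⟨dig n p i, dig_lt hn p i⟩ := by
  simp [W, ext, hi]

theorem W_ge {p i : ℕ} (hi : ¬ i < n) : W e hn p i = ⊥ := by
  simp [W, ext, hi]

theorem exists_W (v : ℕ → α) : ∃ p < n ^ n, W e hn p = fun i => (ha α).ev v (cutoff n i) := by
  obtain ⟨p, hp, h⟩ := exists_dig_fin (fun i : Fin n => e (v i))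
  refine ⟨p, hp, ?_⟩
  funext i
  by_cases hi : i < n
  · rw [W_lt e hn hi]
    have h1 : (⟨dig n p i, dig_lt hn p i⟩ : Fin n) = e (v i) := Fin.ext (h ⟨i, hi⟩)
    rw [h1, Equiv.symm_apply_apply]
    simp [cutoff, hi]
  · rw [W_ge e hn hi]
    simp only [cutoff, hi, if_false]
    rfl

theorem W_cutoff (p : ℕ) : (fun i => (ha α).ev (W e hn p) (cutoff n i)) = W e hn p := by
  funext i
  by_cases hi : i < n
  · simp [cutoff, hi]
  · rw [W_ge e hn hi]
    simp only [cutoff, hi, if_false]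
    rfl

theorem exists_rep (φ : Fm) : ∃ q < NF n, Rep e hn q φ := by
  obtain ⟨q, hq, h⟩ := exists_dig (a := n ^ n) (b := n)
    (fun p => (e ((ha α).ev (W e hn p) φ) : ℕ)) (fun p _ => Fin.isLt _)
  exact ⟨q, hq, h⟩

variable (hA : IsHom (ha α) (NA n tA hn) e)

include hA

theorem e_bot : ((e (ha α).bot : Fin n) : ℕ) = nbot n tA := by
  rw [hA.bot]; rfl

theorem e_op (k : Fin 3) (a b : α) : ((e ((ha α).op k a b) : Fin n) : ℕ) =
    nop n tA k (e a) (e b) := by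
  rw [hA.op]; rfl

theorem rep_closed {S : ℕ} (hS : Closed n tA S) (φ : Fm) :
    ∀ q < NF n, Rep e hn q φ → dig 2 S q = 1 := by
  induction φ using Fm.rec' with
  | hv i =>
    intro q hq h
    by_cases hi : i < n
    · refine hS.1 i hi q hq fun p hp => ?_
      rw [h p hp, Alg.ev_var, W_lt e hn hi, Equiv.apply_symm_apply]
    · refine hS.2.1 q hq fun p hp => ?_
      rw [h p hp, Alg.ev_var, W_ge e hn hi]
      exact e_bot e hn hA
  | hb =>
    intro q hq h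
    refine hS.2.1 q hq fun p hp => ?_
    rw [h p hp, Alg.ev_bot]
    exact e_bot e hn hA
  | ho k φ ψ h1 h2 =>
    intro q hq h
    obtain ⟨q1, hq1, r1⟩ := exists_rep e hn φ
    obtain ⟨q2, hq2, r2⟩ := exists_rep e hn ψ
    refine hS.2.2 k k.2 q1 hq1 q2 hq2 q hq (h1 q1 hq1 r1) (h2 q2 hq2 r2) fun p hp => ?_
    rw [h p hp, Alg.ev_op, r1 p hp, r2 p hp]
    exact e_op e hn hA k _ _

theorem cl_iff {q : ℕ} (hq : q < NF n) : Cl n tA q ↔ ∃ φ, Rep e hn q φ := by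
  classical
  constructor
  · intro h
    obtain ⟨S, hS, hS'⟩ := exists_dig (a := NF n) (b := 2)
      (fun q => if ∃ φ, Rep e hn q φ then 1 else 0) (fun p _ => by split_ifs <;> omega)
    have hS1 : ∀ q < NF n, (dig 2 S q = 1 ↔ ∃ φ, Rep e hn q φ) := by
      intro q hq
      rw [hS' q hq]
      by_cases h : ∃ φ, Rep e hn q φ
      · simp [h]
      · simp [h]
    rw [← hS1 q hq]
    refine h S hS ⟨?_, ?_, ?_⟩
    · intro i hi q hq h
      rw [hS1 q hq]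
      refine ⟨.var i, fun p hp => ?_⟩
      rw [h p hp, Alg.ev_var, W_lt e hn hi, Equiv.apply_symm_apply]
    · intro q hq h
      rw [hS1 q hq]
      refine ⟨.bot, fun p hp => ?_⟩
      rw [h p hp, Alg.ev_bot]
      exact (e_bot e hn hA).symm
    · intro k hk q1 hq1 q2 hq2 q hq h1 h2 h
      rw [hS1 q1 hq1] at h1
      rw [hS1 q2 hq2] at h2
      obtain ⟨φ, h1⟩ := h1
      obtain ⟨ψ, h2⟩ := h2
      rw [hS1 q hq]
      refine ⟨Fm.op ⟨k, hk⟩ φ ψ, fun p hp => ?_⟩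
      rw [h p hp, Alg.ev_op, h1 p hp, h2 p hp]
      exact (e_op e hn hA ⟨k, hk⟩ _ _).symm
  · rintro ⟨φ, h⟩ S _ hS
    exact rep_closed e hn hA hS φ q hq h

theorem exists_code {c t : ℕ} (hc : 0 < c) {s : Fin c → Fm} (hs : FHom α (NA c t hc) s) :
    ∃ h < NF n ^ c, NFHom n tA c t h ∧ ∀ x : Fin c, Rep e hn (dig (NF n) h x) (s x) := by
  choose q hq hq' using fun x : Fin c => exists_rep e hn (s x)
  obtain ⟨h, hh, hh'⟩ := exists_dig_fin (fun x : Fin c => (⟨q x, hq x⟩ : Fin (NF n)))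
  have hrep : ∀ x : Fin c, Rep e hn (dig (NF n) h x) (s x) := fun x => by
    rw [hh' x]
    exact hq' x
  have hNF : 0 < NF n := pow_pos hn _
  refine ⟨h, hh, ⟨?_, ?_, ?_⟩, hrep⟩
  · intro x hx
    rw [cl_iff e hn hA (dig_lt hNF _ _)]
    exact ⟨_, hrep ⟨x, hx⟩⟩
  · intro p hp
    have h1 := hrep (NA c t hc).bot p hp
    rw [(hs _).bot, e_bot e hn hA] at h1
    exact h1
  · intro k hk i hi j hj p hp
    have h1 := hrep ((NA c t hc).op ⟨k, hk⟩ ⟨i, hi⟩ ⟨j, hj⟩) p hp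
    rw [(hs _).op, e_op e hn hA, ← hrep ⟨i, hi⟩ p hp, ← hrep ⟨j, hj⟩ p hp] at h1
    exact h1

theorem exists_FHom {c t : ℕ} (hc : 0 < c) {h : ℕ} (hh : NFHom n tA c t h) :
    ∃ s : Fin c → Fm, FHom α (NA c t hc) s ∧ (∀ x : Fin c, Rep e hn (dig (NF n) h x) (s x)) ∧
      ∀ x y, Sep α (s x) (s y) →
        ∃ p < n ^ n, (ha α).ev (W e hn p) (s x) ≠ (ha α).ev (W e hn p) (s y) := by
  have hNF : 0 < NF n := pow_pos hn _
  have h0 : ∀ x : Fin c, ∃ φ, Rep e hn (dig (NF n) h x) φ := fun x => by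
    rw [← cl_iff e hn hA (dig_lt hNF _ _)]
    exact hh.1 x x.2
  choose φ hφ using h0
  have hrep : ∀ x : Fin c, Rep e hn (dig (NF n) h x) ((φ x).subst (cutoff n)) := by
    intro x p hp
    rw [Alg.ev_subst, W_cutoff]
    exact hφ x p hp
  refine ⟨fun x => (φ x).subst (cutoff n), ?_, hrep, ?_⟩
  · intro v
    obtain ⟨p, hp, hv⟩ := exists_W e hn v
    have h1 : ∀ x : Fin c, (((e ((ha α).ev v ((φ x).subst (cutoff n)))) : Fin n) : ℕ) =
        dig n (dig (NF n) h x) p := by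
      intro x
      rw [Alg.ev_subst, ← hv, hφ x p hp]
    constructor
    · apply e.injective
      apply Fin.ext
      rw [h1, e_bot e hn hA]
      exact hh.2.1 p hp
    · intro k a b
      apply e.injective
      apply Fin.ext
      rw [h1, e_op e hn hA, h1, h1]
      exact hh.2.2 k k.2 a a.2 b b.2 p hp
  · rintro x y ⟨v, hv⟩
    obtain ⟨p, hp, hv'⟩ := exists_W e hn v
    refine ⟨p, hp, ?_⟩
    simp only [Alg.ev_subst] at hv ⊢
    rw [W_cutoff, hv']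
    exact hv

omit hA in
/-- compression of the variables -/
theorem compress {γ : Type} {C : Alg γ} {s : γ → Fm} (hs : FHom α C s) {a b : γ}
    (hab : Sep α (s a) (s b)) : ∃ s', FHom α C s' ∧
      (∃ p < n ^ n, (ha α).ev (W e hn p) (s' a) ≠ (ha α).ev (W e hn p) (s' b)) ∧
      ∀ x y, Sep α (s' x) (s' y) → Sep α (s x) (s y) := by
  obtain ⟨v, hv⟩ := hab
  let τ : ℕ → Fm := fun i => .var (e (v i))
  refine ⟨fun x => (s x).subst τ, ?_, ?_, ?_⟩
  · intro w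
    have := hs fun i => (ha α).ev w (τ i)
    simpa only [Alg.ev_subst] using this
  · obtain ⟨p, hp, h⟩ := exists_dig_fin (fun i : Fin n => i)
    refine ⟨p, hp, ?_⟩
    have h1 : (fun i => (ha α).ev (W e hn p) (τ i)) = v := by
      funext i
      show W e hn p (e (v i)) = v i
      rw [W_lt e hn (Fin.isLt _)]
      have h2 : (⟨dig n p (e (v i)), dig_lt hn p _⟩ : Fin n) = e (v i) := Fin.ext (h _)
      rw [h2, Equiv.symm_apply_apply]
    simp only [Alg.ev_subst]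
    rw [h1]
    exact hv
  · rintro x y ⟨w, hw⟩
    simp only [Alg.ev_subst] at hw
    exact ⟨_, hw⟩

omit hA in
theorem rep_ne {q q' : ℕ} {φ ψ : Fm} (h : Rep e hn q φ) (h' : Rep e hn q' ψ)
    (hp : ∃ p < n ^ n, (ha α).ev (W e hn p) φ ≠ (ha α).ev (W e hn p) ψ) : q ≠ q' := by
  rintro rfl
  obtain ⟨p, hp, hne⟩ := hp
  apply hne
  apply e.injective
  apply Fin.ext
  rw [← h p hp, ← h' p hp]

omit hA in
theorem ne_rep {q q' : ℕ} {φ ψ : Fm} (hq : q < NF n) (hq' : q' < NF n) (h : Rep e hn q φ)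
    (h' : Rep e hn q' ψ) (hne : q ≠ q') : Sep α φ ψ := by
  by_contra hcon
  unfold Sep at hcon
  push Not at hcon
  apply hne
  apply dig_inj hq hq'
  intro p hp
  rw [h p hp, h' p hp, hcon]

theorem nInQ_iff {c t : ℕ} (hc : 0 < c) : NInQ n tA c t ↔ InQ α (NA c t hc) := by
  have hNF : 0 < NF n := pow_pos hn _
  constructor
  · intro h a b hab
    obtain ⟨q, _, hq, hne⟩ := h a a.2 b b.2 (fun h => hab (Fin.ext h))
    obtain ⟨s, hs, hrep, -⟩ := exists_FHom e hn hA hc hq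
    exact ⟨s, hs, ne_rep e hn (dig_lt hNF _ _) (dig_lt hNF _ _) (hrep a) (hrep b) hne⟩
  · intro h a ha' b hb hab
    obtain ⟨s, hs, hsep⟩ := h ⟨a, ha'⟩ ⟨b, hb⟩ (fun h => hab (congrArg Fin.val h))
    obtain ⟨s', hs', hsep', -⟩ := compress e hn hs hsep
    obtain ⟨q, hq, hq', hrep⟩ := exists_code e hn hA hc hs'
    exact ⟨q, hq, hq', rep_ne e hn (hrep ⟨a, ha'⟩) (hrep ⟨b, hb⟩) hsep'⟩

theorem nQSI_iff {c t : ℕ} (hc : 0 < c) : NQSI n tA c t ↔ QSI α (NA c t hc) := by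
  have hNF : 0 < NF n := pow_pos hn _
  constructor
  · rintro ⟨a, ha', b, hb, hab, h⟩
    refine ⟨⟨a, ha'⟩, ⟨b, hb⟩, fun h => hab (congrArg Fin.val h), fun s hs hsep x y hxy => ?_⟩
    obtain ⟨s', hs', hsep', h'⟩ := compress e hn hs hsep
    obtain ⟨q, hq, hq', hrep⟩ := exists_code e hn hA hc hs'
    apply h'
    have h1 := h q hq hq' (rep_ne e hn (hrep ⟨a, ha'⟩) (hrep ⟨b, hb⟩) hsep') x x.2 y y.2
      (fun h => hxy (Fin.ext h))
    exact ne_rep e hn (dig_lt hNF _ _) (dig_lt hNF _ _) (hrep _) (hrep _) h1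
  · rintro ⟨a, b, hab, h⟩
    refine ⟨a, a.2, b, b.2, fun h => hab (Fin.ext h), fun q hq hq' hne x hx y hy hxy => ?_⟩
    obtain ⟨s, hs, hrep, hsep⟩ := exists_FHom e hn hA hc hq'
    have h1 := h s hs (ne_rep e hn (dig_lt hNF _ _) (dig_lt hNF _ _) (hrep a) (hrep b) hne)
      ⟨x, hx⟩ ⟨y, hy⟩ (fun h => hxy (congrArg Fin.val h))
    exact rep_ne e hn (hrep ⟨x, hx⟩) (hrep ⟨y, hy⟩) (hsep _ _ h1)

end

theorem nHom_iff {c t d t' h : ℕ} (hc : 0 < c) (hd : 0 < d) : NHom c t d t' h ↔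
    IsHom (NA c t hc) (NA d t' hd) fun x => ⟨dig d h x, dig_lt hd _ _⟩ := by
  constructor
  · rintro ⟨h1, h2⟩
    exact ⟨Fin.ext h1, fun k a b => Fin.ext (h2 k k.2 a a.2 b b.2)⟩
  · rintro ⟨h1, h2⟩
    exact ⟨congrArg Fin.val h1, fun k hk i hi j hj =>
      congrArg Fin.val (h2 ⟨k, hk⟩ ⟨i, hi⟩ ⟨j, hj⟩)⟩

end Pool.Agent.Lib.MP_d44404_lc
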