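import Pool.Agent.Lib.MP_d44404_lc.Bound

/-!
# The numerical criterion is primitive recursive
-/

namespace Pool.Agent.Lib.MP_d44404_lc

attribute [local fun_prop] Primrec

section

variable {α β γ : Type} [Primcodable α] [Primcodable β] [Primcodable γ]

@[local fun_prop] theorem prim_id : Primrec fun x : α => x := Primrec.id

@[local fun_prop] theorem prim_const (b : β) : Primrec fun _ : α => b := Primrec.const b

@[local fun_prop] theorem prim_comp {f : β → γ} {g : α → β} (hf : Primrec f) (hg : Primrec g) :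
    Primrec fun x => f (g x) := hf.comp hg

@[local fun_prop] theorem prim_fst {f : α → β × γ} (hf : Primrec f) : Primrec fun x => (f x).1 :=
  Primrec.fst.comp hf

@[local fun_prop] theorem prim_snd {f : α → β × γ} (hf : Primrec f) : Primrec fun x => (f x).2 :=
  Primrec.snd.comp hf

@[local fun_prop] theorem prim_mk {f : α → β} {g : α → γ} (hf : Primrec f) (hg : Primrec g) :
    Primrec fun x => (f x, g x) := Primrec.pair hf hg

@[local fun_prop] theorem prim_add {f g : α → ℕ} (hf : Primrec f) (hg : Primrec g) :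
    Primrec fun x => f x + g x := Primrec.nat_add.comp hf hg

@[local fun_prop] theorem prim_mul {f g : α → ℕ} (hf : Primrec f) (hg : Primrec g) :
    Primrec fun x => f x * g x := Primrec.nat_mul.comp hf hg

@[local fun_prop] theorem prim_div {f g : α → ℕ} (hf : Primrec f) (hg : Primrec g) :
    Primrec fun x => f x / g x := Primrec.nat_div.comp hf hg

@[local fun_prop] theorem prim_mod {f g : α → ℕ} (hf : Primrec f) (hg : Primrec g) :
    Primrec fun x => f x % g x := Primrec.nat_mod.comp hf hg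

theorem prim_pow' : Primrec fun x : ℕ × ℕ => x.1 ^ x.2 := by
  have h : Primrec₂ fun (x : ℕ × ℕ) (k : ℕ) => Nat.rec (motive := fun _ => ℕ) 1
      (fun _ r => r * x.1) k :=
    Primrec.nat_rec (Primrec.const 1) (Primrec.nat_mul.comp (Primrec.snd.comp Primrec.snd)
      (Primrec.fst.comp Primrec.fst)).to₂
  refine (h.comp Primrec.id Primrec.snd).of_eq fun x => ?_
  simp only [id]
  induction x.2 with
  | zero => rfl
  | succ k ih => rw [pow_succ, ← ih]

@[local fun_prop] theorem prim_pow {f g : α → ℕ} (hf : Primrec f) (hg : Primrec g) :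
    Primrec fun x => f x ^ g x := prim_pow'.comp (Primrec.pair hf hg)

theorem pp_all {b : α → ℕ} {p : α → ℕ → Prop} (hb : Primrec b)
    (hp : PrimrecPred fun x : α × ℕ => p x.1 x.2) : PrimrecPred fun a => ∀ x < b a, p a x := by
  have h1 : PrimrecRel fun (x : ℕ) (a : α) => p a x :=
    PrimrecPred.comp hp (Primrec.pair Primrec.snd Primrec.fst)
  exact (h1.forall_mem_list.comp (Primrec.list_range.comp hb) Primrec.id).of_eq (by simp)

theorem pp_ex {b : α → ℕ} {p : α → ℕ → Prop} (hb : Primrec b)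
    (hp : PrimrecPred fun x : α × ℕ => p x.1 x.2) : PrimrecPred fun a => ∃ x < b a, p a x := by
  have h1 : PrimrecRel fun (x : ℕ) (a : α) => p a x :=
    PrimrecPred.comp hp (Primrec.pair Primrec.snd Primrec.fst)
  exact (h1.exists_mem_list.comp (Primrec.list_range.comp hb) Primrec.id).of_eq (by simp)

theorem pp_and {p q : α → Prop} (hp : PrimrecPred p) (hq : PrimrecPred q) :
    PrimrecPred fun a => p a ∧ q a := hp.and hq

theorem pp_imp {p q : α → Prop} (hp : PrimrecPred p) (hq : PrimrecPred q) :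
    PrimrecPred fun a => p a → q a :=
  (hp.not.or hq).of_eq fun a => by tauto

theorem pp_eq {f g : α → ℕ} (hf : Primrec f) (hg : Primrec g) :
    PrimrecPred fun a => f a = g a := Primrec.eq.comp hf hg

theorem pp_lt {f g : α → ℕ} (hf : Primrec f) (hg : Primrec g) :
    PrimrecPred fun a => f a < g a := Primrec.nat_lt.comp hf hg

theorem pp_ne {f g : α → ℕ} (hf : Primrec f) (hg : Primrec g) :
    PrimrecPred fun a => f a ≠ g a := (pp_eq hf hg).not

@[local fun_prop] theorem prim_dig {b q p : α → ℕ} (hb : Primrec b) (hq : Primrec q)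
    (hp : Primrec p) : Primrec fun x => dig (b x) (q x) (p x) := by
  unfold dig
  fun_prop

@[local fun_prop] theorem prim_nop {c t k i j : α → ℕ} (hc : Primrec c) (ht : Primrec t)
    (hk : Primrec k) (hi : Primrec i) (hj : Primrec j) :
    Primrec fun x => nop (c x) (t x) (k x) (i x) (j x) := by
  unfold nop
  fun_prop

@[local fun_prop] theorem prim_nbot {c t : α → ℕ} (hc : Primrec c) (ht : Primrec t) :
    Primrec fun x => nbot (c x) (t x) := by
  unfold nbot
  fun_prop

@[local fun_prop] theorem prim_NF {c : α → ℕ} (hc : Primrec c) : Primrec fun x => NF (c x) := by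
  unfold NF
  fun_prop

theorem pp_closed {n tA S : α → ℕ} (hn : Primrec n) (ht : Primrec tA) (hS : Primrec S) :
    PrimrecPred fun x => Closed (n x) (tA x) (S x) := by
  unfold Closed
  (repeat' (with_reducible first
      | refine pp_all ?_ ?_
      | refine pp_ex ?_ ?_
      | refine pp_and ?_ ?_
      | refine pp_ne ?_ ?_
      | refine pp_imp ?_ ?_
      | refine pp_eq ?_ ?_
      | refine pp_lt ?_ ?_)) <;> fun_prop

theorem pp_cl {n tA q : α → ℕ} (hn : Primrec n) (ht : Primrec tA) (hq : Primrec q) :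
    PrimrecPred fun x => Cl (n x) (tA x) (q x) := by
  unfold Cl
  refine pp_all ?_ (pp_imp (pp_closed ?_ ?_ ?_) (pp_eq ?_ ?_)) <;> fun_prop

theorem pp_NFHom {n tA c t h : α → ℕ} (hn : Primrec n) (htA : Primrec tA) (hc : Primrec c)
    (ht : Primrec t) (hh : Primrec h) :
    PrimrecPred fun x => NFHom (n x) (tA x) (c x) (t x) (h x) := by
  unfold NFHom
  refine pp_and (pp_all ?_ (pp_cl ?_ ?_ ?_)) (pp_and ?_ ?_)
  iterate 4 fun_prop
  · (repeat' (with_reducible first
        | refine pp_all ?_ ?_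
        | refine pp_ex ?_ ?_
        | refine pp_and ?_ ?_
        | refine pp_ne ?_ ?_
        | refine pp_imp ?_ ?_
        | refine pp_eq ?_ ?_
        | refine pp_lt ?_ ?_)) <;> fun_prop
  · (repeat' (with_reducible first
        | refine pp_all ?_ ?_
        | refine pp_ex ?_ ?_
        | refine pp_and ?_ ?_
        | refine pp_ne ?_ ?_
        | refine pp_imp ?_ ?_
        | refine pp_eq ?_ ?_
        | refine pp_lt ?_ ?_)) <;> fun_prop

theorem pp_NInQ {n tA c t : α → ℕ} (hn : Primrec n) (htA : Primrec tA) (hc : Primrec c)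
    (ht : Primrec t) : PrimrecPred fun x => NInQ (n x) (tA x) (c x) (t x) := by
  unfold NInQ
  refine pp_all ?_ (pp_all ?_ (pp_imp (pp_ne ?_ ?_) (pp_ex ?_ (pp_and (pp_NFHom ?_ ?_ ?_ ?_ ?_)
    (pp_ne ?_ ?_))))) <;> fun_prop

theorem pp_NQSI {n tA c t : α → ℕ} (hn : Primrec n) (htA : Primrec tA) (hc : Primrec c)
    (ht : Primrec t) : PrimrecPred fun x => NQSI (n x) (tA x) (c x) (t x) := by
  unfold NQSI
  refine pp_ex ?_ (pp_ex ?_ (pp_and (pp_ne ?_ ?_) (pp_all ?_ (pp_imp (pp_NFHom ?_ ?_ ?_ ?_ ?_)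
    ?_))))
  iterate 10 fun_prop
  (repeat' (with_reducible first
      | refine pp_all ?_ ?_
      | refine pp_ex ?_ ?_
      | refine pp_and ?_ ?_
      | refine pp_ne ?_ ?_
      | refine pp_imp ?_ ?_
      | refine pp_eq ?_ ?_
      | refine pp_lt ?_ ?_)) <;> fun_prop

theorem pp_NHom {c t d t' h : α → ℕ} (hc : Primrec c) (ht : Primrec t) (hd : Primrec d)
    (ht' : Primrec t') (hh : Primrec h) :
    PrimrecPred fun x => NHom (c x) (t x) (d x) (t' x) (h x) := by
  unfold NHom
  (repeat' (with_reducible first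
      | refine pp_all ?_ ?_
      | refine pp_ex ?_ ?_
      | refine pp_and ?_ ?_
      | refine pp_ne ?_ ?_
      | refine pp_imp ?_ ?_
      | refine pp_eq ?_ ?_
      | refine pp_lt ?_ ?_)) <;> fun_prop

theorem pp_NCrit {n tA : α → ℕ} (hn : Primrec n) (htA : Primrec tA) :
    PrimrecPred fun x => NCrit (n x) (tA x) := by
  unfold NCrit
  refine pp_all ?_ (pp_all ?_ (pp_all ?_ (pp_all ?_ (pp_imp (pp_lt ?_ ?_) (pp_imp (pp_lt ?_ ?_)
    (pp_imp (pp_NInQ ?_ ?_ ?_ ?_) (pp_imp (pp_NInQ ?_ ?_ ?_ ?_) (pp_imp (pp_NQSI ?_ ?_ ?_ ?_)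
    (pp_imp (pp_ex ?_ (pp_and (pp_NHom ?_ ?_ ?_ ?_ ?_) ?_))
    (pp_ex ?_ (pp_and (pp_NHom ?_ ?_ ?_ ?_ ?_) ?_)))))))))))
  iterate 26 fun_prop
  · (repeat' (with_reducible first
        | refine pp_all ?_ ?_
        | refine pp_ex ?_ ?_
        | refine pp_and ?_ ?_
        | refine pp_ne ?_ ?_
        | refine pp_imp ?_ ?_
        | refine pp_eq ?_ ?_
        | refine pp_lt ?_ ?_)) <;> fun_prop
  iterate 6 fun_prop
  · (repeat' (with_reducible first
        | refine pp_all ?_ ?_
        | refine pp_ex ?_ ?_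
        | refine pp_and ?_ ?_
        | refine pp_ne ?_ ?_
        | refine pp_imp ?_ ?_
        | refine pp_eq ?_ ?_
        | refine pp_lt ?_ ?_)) <;> fun_prop

end

end Pool.Agent.Lib.MP_d44404_lc
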